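import Pool.Agent.N824.CD.Emb
import Pool.Agent.N824.CJ.Conv

/-!
# Coarse discs: smooth discs are coarse discs
-/

set_option autoImplicit false
set_option maxSynthPendingDepth 3

open Set Filter Topology Metric Function MeasureTheory
open scoped Manifold ContDiff Convolution

set_option linter.unusedSectionVars false

noncomputable section

namespace Pool.Agent.N824.CD

open Pool.Agent.Y522 Pool.Agent.Y954.SH Pool.Agent.N824.CR Pool.Agent.N824.CN Pool.Agent.N824.CJ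

variable {n : ℕ} {W : Type} [NormedAddCommGroup W] [NormedSpace ℝ W] [FiniteDimensional ℝ W]

/-- embeddings of the closed unit ball are bounded below -/
theorem lowerBd {φ : E n → W} (hs : ∀ x, ‖x‖ ≤ 1 → ContDiffAt ℝ ∞ φ x)
    (hinj : ∀ x y, ‖x‖ ≤ 1 → ‖y‖ ≤ 1 → φ x = φ y → x = y)
    (himm : ∀ x, ‖x‖ ≤ 1 → ∀ v, fderiv ℝ φ x v = 0 → v = 0) :
    ∃ c : ℝ, 0 < c ∧ ∀ x y, ‖x‖ ≤ 1 → ‖y‖ ≤ 1 → c * ‖x - y‖ ≤ ‖φ x - φ y‖ := by
  have hc : IsCompact (closedBall (0 : E n) 1 ×ˢ closedBall (0 : E n) 1) :=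
    (isCompact_closedBall _ _).prod (isCompact_closedBall _ _)
  have h1 : ∃ c : ℝ, 0 < c ∧ ∀ z ∈ closedBall (0 : E n) 1 ×ˢ closedBall (0 : E n) 1,
      c * ‖z.1 - z.2‖ ≤ ‖φ z.1 - φ z.2‖ := by
    refine hc.induction_on (p := fun s => ∃ c : ℝ, 0 < c ∧ ∀ z ∈ s,
      c * ‖z.1 - z.2‖ ≤ ‖φ z.1 - φ z.2‖) ?_ ?_ ?_ ?_
    · exact ⟨1, one_pos, fun z hz => absurd hz (notMem_empty z)⟩
    · rintro s t hst ⟨c, h1, h2⟩
      exact ⟨c, h1, fun z hz => h2 z (hst hz)⟩
    · rintro s t ⟨c, h1, h2⟩ ⟨c', h1', h2'⟩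
      refine ⟨min c c', lt_min h1 h1', ?_⟩
      rintro z (hz | hz)
      · refine le_trans ?_ (h2 z hz)
        gcongr
        exact min_le_left _ _
      · refine le_trans ?_ (h2' z hz)
        gcongr
        exact min_le_right _ _
    · rintro ⟨x, y⟩ ⟨hx, hy⟩
      have hx1 : ‖x‖ ≤ 1 := mem_closedBall_zero_iff.1 hx
      have hy1 : ‖y‖ ≤ 1 := mem_closedBall_zero_iff.1 hy
      by_cases hxy : x = y
      · subst hxy
        obtain ⟨c, hc, hcl⟩ := exists_lower (fderiv ℝ φ x).toLinearMap (by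
          rw [← LinearMap.ker_eq_bot, LinearMap.ker_eq_bot']
          exact fun v hv => himm x hx1 v hv)
        have hst : HasStrictFDerivAt φ (fderiv ℝ φ x) x := (hs x hx1).hasStrictFDerivAt (by simp)
        have e2 : ∀ᶠ z : E n × E n in 𝓝 (x, x),
            ‖φ z.1 - φ z.2 - fderiv ℝ φ x (z.1 - z.2)‖ ≤ c / 2 * ‖z.1 - z.2‖ :=
          hst.isLittleO.def (by positivity)
        refine ⟨_, mem_nhdsWithin_of_mem_nhds e2, c / 2, by positivity, fun z hz => ?_⟩
        have h3 : ‖φ z.1 - φ z.2 - fderiv ℝ φ x (z.1 - z.2)‖ ≤ c / 2 * ‖z.1 - z.2‖ := hz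
        have h4 : c * ‖z.1 - z.2‖ ≤ ‖fderiv ℝ φ x (z.1 - z.2)‖ := hcl _
        have h5 : ‖fderiv ℝ φ x (z.1 - z.2)‖ ≤ ‖φ z.1 - φ z.2‖ +
            ‖φ z.1 - φ z.2 - fderiv ℝ φ x (z.1 - z.2)‖ := by
          calc ‖fderiv ℝ φ x (z.1 - z.2)‖ =
              ‖(φ z.1 - φ z.2) - (φ z.1 - φ z.2 - fderiv ℝ φ x (z.1 - z.2))‖ := by
                congr 1; abel
            _ ≤ _ := norm_sub_le _ _
        linarith
      · have h0 : 0 < ‖φ x - φ y‖ := norm_pos_iff.2 (sub_ne_zero.2 fun h =>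
          hxy (hinj x y hx1 hy1 h))
        have hcont : ContinuousAt (fun z : E n × E n => ‖φ z.1 - φ z.2‖) (x, y) := by
          have k1 : ContinuousAt (fun z : E n × E n => φ z.1) (x, y) :=
            ContinuousAt.comp (f := fun z : E n × E n => z.1) (hs x hx1).continuousAt
              continuousAt_fst
          have k2 : ContinuousAt (fun z : E n × E n => φ z.2) (x, y) :=
            ContinuousAt.comp (f := fun z : E n × E n => z.2) (hs y hy1).continuousAt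
              continuousAt_snd
          exact (k1.sub k2).norm
        have e2 : ∀ᶠ z : E n × E n in 𝓝 (x, y), ‖φ x - φ y‖ / 2 < ‖φ z.1 - φ z.2‖ :=
          hcont.eventually_const_lt (show ‖φ x - φ y‖ / 2 < ‖φ x - φ y‖ by linarith)
        have e3 : ∀ᶠ z : E n × E n in 𝓝[closedBall (0 : E n) 1 ×ˢ closedBall (0 : E n) 1] (x, y),
            ‖z.1 - z.2‖ ≤ 2 := by
          filter_upwards [self_mem_nhdsWithin] with z hz
          have h3 : ‖z.1‖ ≤ 1 := mem_closedBall_zero_iff.1 hz.1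
          have h4 : ‖z.2‖ ≤ 1 := mem_closedBall_zero_iff.1 hz.2
          exact (norm_sub_le _ _).trans (by linarith)
        refine ⟨_, (eventually_nhdsWithin_of_eventually_nhds e2).and e3, ‖φ x - φ y‖ / 4,
          by positivity, fun z hz => ?_⟩
        have h3 : ‖φ x - φ y‖ / 2 < ‖φ z.1 - φ z.2‖ := hz.1
        have h4 : ‖z.1 - z.2‖ ≤ 2 := hz.2
        nlinarith
  obtain ⟨c, hc0, hcl⟩ := h1
  exact ⟨c, hc0, fun x y hx hy => hcl (x, y) ⟨mem_closedBall_zero_iff.2 hx,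
    mem_closedBall_zero_iff.2 hy⟩⟩

/-- lower bound of the derivative -/
theorem lowerD {φ : E n → W} {c : ℝ} {p : E n} (hd : DifferentiableAt ℝ φ p)
    (hc : ∀ᶠ y in 𝓝 p, c * ‖y - p‖ ≤ ‖φ y - φ p‖) (v : E n) : c * ‖v‖ ≤ ‖fderiv ℝ φ p v‖ := by
  have h0 : HasDerivAt (fun t : ℝ => p + t • v) v 0 := by
    have h1 : HasDerivAt (fun t : ℝ => t • v) ((1 : ℝ) • v) 0 := (hasDerivAt_id (0 : ℝ)).smul_const v
    rw [one_smul] at h1
    exact h1.const_add p
  have h1 : HasDerivAt (fun t : ℝ => φ (p + t • v)) (fderiv ℝ φ p v) 0 := by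
    have h2 : HasFDerivAt φ (fderiv ℝ φ p) (p + (0 : ℝ) • v) := by
      rw [zero_smul, add_zero]
      exact hd.hasFDerivAt
    exact h2.comp_hasDerivAt (0 : ℝ) h0
  have h2 := h1.tendsto_slope_zero_right
  have h3 : Tendsto (fun t : ℝ => ‖t⁻¹ • (φ (p + (0 + t) • v) - φ (p + (0 : ℝ) • v))‖) (𝓝[>] 0)
      (𝓝 ‖fderiv ℝ φ p v‖) := h2.norm
  refine ge_of_tendsto h3 ?_
  have h4 : Tendsto (fun t : ℝ => p + t • v) (𝓝[>] 0) (𝓝 p) := by
    have h5 := h0.continuousAt.tendsto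
    rw [zero_smul, add_zero] at h5
    exact h5.mono_left nhdsWithin_le_nhds
  filter_upwards [h4.eventually hc, self_mem_nhdsWithin] with t ht ht0
  replace ht0 : 0 < t := ht0
  rw [zero_add, zero_smul, add_zero, norm_smul, norm_inv, Real.norm_of_nonneg ht0.le]
  have e1 : p + t • v - p = t • v := by abel
  rw [e1, norm_smul, Real.norm_of_nonneg ht0.le] at ht
  rw [le_inv_mul_iff₀ ht0]
  linarith

/-- smooth discs are coarse discs -/
theorem back (C : ℝ) (e : W →L[ℝ] ℝ) (he : ‖e‖ ≤ 1) {φ : E n → W}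
    (hs : ∀ x, ‖x‖ ≤ 1 → ContDiffAt ℝ ∞ φ x)
    (hinj : ∀ x y, ‖x‖ ≤ 1 → ‖y‖ ≤ 1 → φ x = φ y → x = y)
    (himm : ∀ x, ‖x‖ ≤ 1 → ∀ v, fderiv ℝ φ x v = 0 → v = 0)
    (hpos : ∀ x, ‖x‖ < 1 → 0 < e (φ x)) :
    ∃ (τ : ℝ → ℝ) (lam H : ℝ), Tendsto τ (𝓝[>] 0) (𝓝 0) ∧ 0 < lam ∧ 1 ≤ H ∧
      (∀ r, 0 < r → ∀ q q' : E n, ‖q‖ ≤ 1 → ‖q'‖ ≤ 1 → r / 2 ≤ ‖q - q'‖ →
        lam * r ≤ ‖φ q - φ q'‖) ∧
      ∀ x : E n, ‖x‖ < 1 → 1 ≤ ‖e.comp (fderiv ℝ φ x)‖ → ∃ ρ : ℝ, 0 < ρ ∧ ∀ p : E n,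
        ‖p - x‖ < ρ → ∀ r, 0 < r → r < ρ → ∃ (L : E n →L[ℝ] W) (δ : ℝ) (c : W), 0 ≤ δ ∧
          (1 + ‖L‖) * r ≤ δ * τ r ∧ AC n φ p r δ L c ∧
          QE C e (fun _ => φ) (fun _ => lam) (fun _ => H)
            (fun L δ => ∃ v, C * δ * ‖v‖ < e (L v)) r p L δ := by
  obtain ⟨c0, hc0, hlow⟩ := lowerBd hs hinj himm
  obtain ⟨B, hB⟩ := (isCompact_closedBall (0 : E n) 1).exists_bound_of_continuousOn
    (f := fun x => fderiv ℝ φ x) (fun x hx => by
      have hx1 : ‖x‖ ≤ 1 := mem_closedBall_zero_iff.1 hx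
      exact ((hs x hx1).fderiv_right (m := 0) (by simp)).continuousAt.continuousWithinAt)
  have hB' : ∀ x : E n, ‖x‖ ≤ 1 → ‖fderiv ℝ φ x‖ ≤ B := fun x hx =>
    hB x (mem_closedBall_zero_iff.2 hx)
  have hB0 : 0 ≤ B := (norm_nonneg _).trans (hB' 0 (by simp))
  obtain ⟨H, hH⟩ : ∃ H : ℝ, H = max 1 (2 * B / c0) := ⟨_, rfl⟩
  have hH1 : 1 ≤ H := by rw [hH]; exact le_max_left _ _
  have hHB : B ≤ H * (c0 / 2) := by
    have h1 : 2 * B / c0 ≤ H := by rw [hH]; exact le_max_right _ _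
    rw [div_le_iff₀ hc0] at h1
    linarith
  have hsq : Tendsto Real.sqrt (𝓝 0) (𝓝 0) := by
    have h1 : Tendsto Real.sqrt (𝓝 0) (𝓝 (Real.sqrt 0)) := Real.continuous_sqrt.continuousAt
    rwa [Real.sqrt_zero] at h1
  refine ⟨fun r => (1 + B) * Real.sqrt r, c0 / 2, H, ?_, by positivity, hH1,
    fun r hr q q' hq hq' hqq => ?_, fun x hx hx2 => ?_⟩
  · have h1 := (hsq.const_mul (1 + B)).mono_left (nhdsWithin_le_nhds (s := Ioi (0 : ℝ)))
    rwa [mul_zero] at h1
  · refine le_trans ?_ (hlow q q' hq hq')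
    nlinarith
  · obtain ⟨ρq, Cq, hρq, hCq, hdq, hquad⟩ := quad_ballW (hs x hx.le) (show (0 : ℝ) < 1 / 2 by
      norm_num)
    have hxpos := hpos x hx
    have hev : ∀ᶠ p in 𝓝 x, e (φ x) / 2 < e (φ p) := by
      have h1 : ContinuousAt (fun p => e (φ p)) x := e.continuous.continuousAt.comp
        (hs x hx.le).continuousAt
      exact h1.eventually_const_lt (by linarith)
    obtain ⟨ρe, hρe, hbe⟩ := Metric.mem_nhds_iff.1 hev
    have hVB := VB_nonneg (n := n)
    -- small scales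
    have hlim : ∀ (k b : ℝ), 0 < b → ∀ᶠ r in 𝓝 (0 : ℝ), k * Real.sqrt r < b := by
      intro k b hb
      have h1 := hsq.const_mul k
      rw [mul_zero] at h1
      exact h1.eventually_lt_const hb
    obtain ⟨ρs, hρs, hbs⟩ := Metric.mem_nhds_iff.1
      (((hlim (Cq * 4 * 2 ^ n * VB n) 1 one_pos).and (hlim C c0 hc0)).and
        ((hlim (C * H ^ n) (c0 / 2) (by positivity)).and (hlim C (1 / 2) (by norm_num))))
    obtain ⟨ρ, hρ⟩ : ∃ ρ : ℝ, ρ = min (min (ρq / 3) ρe) (min (min ρs 1)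
      (min ((1 - ‖x‖) / 3) (e (φ x) / c0))) := ⟨_, rfl⟩
    have hρ0 : 0 < ρ := by
      rw [hρ]
      have h1 : 0 < 1 - ‖x‖ := by linarith
      exact lt_min (lt_min (by positivity) hρe) (lt_min (lt_min hρs one_pos)
        (lt_min (by positivity) (by positivity)))
    have a1 : ρ ≤ ρq / 3 := by rw [hρ]; exact (min_le_left _ _).trans (min_le_left _ _)
    have a2 : ρ ≤ ρe := by rw [hρ]; exact (min_le_left _ _).trans (min_le_right _ _)
    have a3 : ρ ≤ ρs := by
      rw [hρ]; exact (min_le_right _ _).trans ((min_le_left _ _).trans (min_le_left _ _))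
    have a4 : ρ ≤ 1 := by
      rw [hρ]; exact (min_le_right _ _).trans ((min_le_left _ _).trans (min_le_right _ _))
    have a5 : ρ ≤ (1 - ‖x‖) / 3 := by
      rw [hρ]; exact (min_le_right _ _).trans ((min_le_right _ _).trans (min_le_left _ _))
    have a6 : ρ ≤ e (φ x) / c0 := by
      rw [hρ]; exact (min_le_right _ _).trans ((min_le_right _ _).trans (min_le_right _ _))
    refine ⟨ρ, hρ0, fun p hp r hr hrρ => ?_⟩
    have hbsr := hbs (show r ∈ ball 0 ρs by
      rw [mem_ball_zero_iff, Real.norm_of_nonneg hr.le]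
      linarith)
    obtain ⟨⟨s1, s2⟩, s3, s4⟩ := hbsr
    have hss : Real.sqrt r * Real.sqrt r = r := Real.mul_self_sqrt hr.le
    have hs0 : 0 < Real.sqrt r := Real.sqrt_pos.2 hr
    have hball : ∀ q, ‖q - p‖ ≤ 2 * r → ‖q‖ < 1 ∧ ‖q - x‖ < ρq := by
      intro q hq
      have h1 : ‖q - x‖ ≤ ‖q - p‖ + ‖p - x‖ := by
        calc ‖q - x‖ = ‖(q - p) + (p - x)‖ := by congr 1; abel
          _ ≤ _ := norm_add_le _ _
      have h2 : ‖q‖ ≤ ‖q - x‖ + ‖x‖ := by
        calc ‖q‖ = ‖(q - x) + x‖ := by congr 1; abel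
          _ ≤ _ := norm_add_le _ _
      constructor <;> linarith
    have hp1 := (hball p (by simp; positivity)).1
    have hpd : DifferentiableAt ℝ φ p := (hs p hp1.le).differentiableAt (by simp)
    refine ⟨fderiv ℝ φ p, Real.sqrt r, φ p, hs0.le, ?_, ⟨?_, ?_⟩, ⟨c0, fun v => ?_, s2⟩, ?_, ?_,
      ?_, ?_⟩
    · have h1 := hB' p hp1.le
      calc (1 + ‖fderiv ℝ φ p‖) * r ≤ (1 + B) * r := by gcongr
        _ = Real.sqrt r * ((1 + B) * Real.sqrt r) := by
          rw [mul_left_comm, hss]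
    · refine ContinuousOn.integrableOn_compact (isCompact_closedBall _ _) fun q hq => ?_
      rw [mem_closedBall, dist_eq_norm] at hq
      exact (hs q (hball q hq).1.le).continuousAt.continuousWithinAt
    · have h1 : ∀ q, ‖q - p‖ ≤ 2 * r →
          ‖φ q - φ p - fderiv ℝ φ p (q - p)‖ ≤ Cq * (2 * r) * (2 * r) := by
        intro q hq
        refine (hquad p (2 * r) (fun q hq => (hball q hq).2) q hq).trans ?_
        gcongr
      have h3 : ‖∫ q in closedBall p (2 * r), ‖φ q - φ p - fderiv ℝ φ p (q - p)‖‖ ≤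
          Cq * (2 * r) * (2 * r) *
            (volume : Measure (E n)).real (closedBall p (2 * r)) := by
        refine norm_setIntegral_le_of_norm_le_const measure_closedBall_lt_top fun q hq => ?_
        rw [mem_closedBall, dist_eq_norm] at hq
        rw [norm_norm]
        exact h1 q hq
      rw [vol_cb p (by positivity : 0 < 2 * r)] at h3
      refine ((le_abs_self _).trans h3).trans ?_
      have e1 : Cq * (2 * r) * (2 * r) * ((2 * r) ^ n * VB n) =
          (Cq * 4 * 2 ^ n * VB n * Real.sqrt r) * (Real.sqrt r * r ^ (n + 1)) := by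
        rw [mul_pow, pow_succ]
        have : Cq * 4 * 2 ^ n * VB n * Real.sqrt r * (Real.sqrt r * (r ^ n * r)) =
            Cq * 4 * 2 ^ n * VB n * (Real.sqrt r * Real.sqrt r) * (r ^ n * r) := by ring
        rw [this, hss]
        ring
      rw [e1]
      have h4 : 0 ≤ Real.sqrt r * r ^ (n + 1) := by positivity
      nlinarith
    · refine lowerD hpd ?_ v
      filter_upwards [(isOpen_lt continuous_norm continuous_const).mem_nhds hp1] with y hy
      have hy' : ‖y‖ < 1 := hy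
      exact hlow y p hy'.le hp1.le
    · exact (hB' p hp1.le).trans hHB
    · exact s3.le
    · have h1 : e (φ x) / 2 < e (φ p) := hbe (by
        rw [mem_ball, dist_eq_norm]
        exact hp.trans_le a2)
      have h2 : r ≤ e (φ x) / c0 := hrρ.le.trans a6
      rw [le_div_iff₀ hc0] at h2
      show c0 / 2 * r ≤ e (φ p)
      linarith
    · -- the slope of the height
      by_contra hcon
      push Not at hcon
      have h1 : ‖e.comp (fderiv ℝ φ p)‖ ≤ C * Real.sqrt r ∨ C * Real.sqrt r < 0 := by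
        rcases lt_or_ge (C * Real.sqrt r) 0 with h | h
        · exact Or.inr h
        · refine Or.inl (ContinuousLinearMap.opNorm_le_bound _ h fun v => ?_)
          rw [ContinuousLinearMap.comp_apply, Real.norm_eq_abs, abs_le]
          have k1 := hcon v
          have k2 := hcon (-v)
          rw [norm_neg, map_neg, map_neg] at k2
          constructor <;> linarith
      have h2 : ‖e.comp (fderiv ℝ φ x)‖ ≤ ‖e.comp (fderiv ℝ φ p)‖ + 1 / 2 := by
        have k1 : e.comp (fderiv ℝ φ x) = e.comp (fderiv ℝ φ p) -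
            e.comp (fderiv ℝ φ p - fderiv ℝ φ x) := by
          ext v
          simp
        rw [k1]
        refine (norm_sub_le _ _).trans ?_
        gcongr
        refine (ContinuousLinearMap.opNorm_comp_le _ _).trans ?_
        have k2 := hdq p (by linarith)
        calc ‖e‖ * ‖fderiv ℝ φ p - fderiv ℝ φ x‖ ≤ 1 * (1 / 2) := by gcongr
          _ = 1 / 2 := one_mul _
      rcases h1 with h1 | h1
      · linarith
      · have h3 : ‖e.comp (fderiv ℝ φ p)‖ ≤ 0 := by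
          refine ContinuousLinearMap.opNorm_le_bound _ le_rfl fun v => ?_
          rw [ContinuousLinearMap.comp_apply, Real.norm_eq_abs, zero_mul, abs_nonpos_iff]
          have k1 := hcon v
          have k2 := hcon (-v)
          rw [norm_neg, map_neg, map_neg] at k2
          have k3 : C * Real.sqrt r * ‖v‖ ≤ 0 := mul_nonpos_of_nonpos_of_nonneg h1.le (norm_nonneg v)
          linarith
        linarith

end Pool.Agent.N824.CD
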