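import Pool.Agent.N824.CD.Smooth

/-!
# Coarse discs: embeddings
-/

set_option autoImplicit false
set_option maxSynthPendingDepth 3

open Set Filter Topology Metric Function MeasureTheory
open scoped Manifold ContDiff Convolution

set_option linter.unusedSectionVars false

noncomputable section

namespace Pool.Agent.N824.CD

open Pool.Agent.Y522 Pool.Agent.Y954.SH Pool.Agent.N824.CR Pool.Agent.N824.CN Pool.Agent.N824.CJ

variable {n : ℕ} {W : Type} [NormedAddCommGroup W] [NormedSpace ℝ W] [FiniteDimensional ℝ W]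

/-- the constant -/
def CE (n : ℕ) : ℝ := 32 * ((VB n)⁻¹ * 16 ^ n + CD n)

lemma CE_ge : 32 * CD n ≤ CE n := by
  unfold CE
  have := VB_pos (n := n)
  have h : 0 ≤ (VB n)⁻¹ * 16 ^ n := by positivity
  linarith

/-- the condition at a point -/
def QE (C : ℝ) (e : W →L[ℝ] ℝ) (f : ℝ → E n → W) (lam H : ℝ → ℝ)
    (T : (E n →L[ℝ] W) → ℝ → Prop) (r : ℝ) (p : E n) (L : E n →L[ℝ] W) (δ : ℝ) : Prop :=
  (∃ m : ℝ, (∀ v, m * ‖v‖ ≤ ‖L v‖) ∧ C * δ < m) ∧ ‖L‖ ≤ H r * lam r ∧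
    C * H r ^ n * δ ≤ lam r ∧ lam r * r ≤ e (f r p) ∧ T L δ

/-- a point with a good value -/
theorem near {C : ℝ} (hC : CE n ≤ C) {e : W →L[ℝ] ℝ} {f : ℝ → E n → W} {lam H : ℝ → ℝ}
    {T : (E n →L[ℝ] W) → ℝ → Prop} {r : ℝ} {x : E n} {L : E n →L[ℝ] W} {δ : ℝ} {c : W}
    {F : E n → W} (hr : 0 < r) (hH : 1 ≤ H r) (hδ : 0 ≤ δ)
    (hQ : QE C e f lam H T r x L δ) (hA : AC n (f r) x r δ L c)
    (hF : ‖F x - c‖ ≤ CD n * (δ * r)) :
    ∃ q, ‖q - x‖ ≤ r / 4 ∧ ‖f r q - F x‖ ≤ lam r * r / 8 := by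
  obtain ⟨-, hL, hCH, -, -⟩ := hQ
  have hH0 : 0 < H r := by linarith
  obtain ⟨η, hη⟩ : ∃ η : ℝ, η = 1 / (16 * H r) := ⟨_, rfl⟩
  have hη0 : 0 < η := by rw [hη]; positivity
  have hη1 : η ≤ 1 / 16 := by
    rw [hη]
    exact one_div_le_one_div_of_le (by norm_num) (by linarith)
  obtain ⟨q, hq, hqv⟩ := hA.good hr hη0 (hη1.trans (by norm_num))
  have hVB := VB_pos (n := n)
  have hCD := CD_one (n := n)
  have hHn : 1 ≤ H r ^ n := one_le_pow₀ hH
  have k1 : (VB n)⁻¹ * (η ^ n)⁻¹ * (δ * r) ≤ lam r * r / 32 := by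
    have e1 : (η ^ n)⁻¹ = 16 ^ n * H r ^ n := by
      rw [hη, one_div, inv_pow, inv_inv, mul_pow]
    rw [e1]
    have e2 : 32 * ((VB n)⁻¹ * 16 ^ n) ≤ C := by
      refine le_trans ?_ hC
      unfold CE
      nlinarith
    have e3 : 32 * ((VB n)⁻¹ * 16 ^ n) * (H r ^ n * δ * r) ≤ C * (H r ^ n * δ * r) := by gcongr
    have e4 : C * (H r ^ n * δ * r) ≤ lam r * r := by
      calc C * (H r ^ n * δ * r) = (C * H r ^ n * δ) * r := by ring
        _ ≤ lam r * r := by gcongr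
    nlinarith
  have k2 : CD n * (δ * r) ≤ lam r * r / 32 := by
    have e2 : 32 * CD n ≤ C := CE_ge.trans hC
    have hC0 : 0 ≤ C := by nlinarith
    have e3 : 32 * CD n * (δ * r) ≤ C * (δ * r) := by gcongr
    have e4 : C * (δ * r) ≤ C * H r ^ n * δ * r := by
      have : C * (δ * r) * 1 ≤ C * (δ * r) * H r ^ n := by gcongr
      linarith
    have e5 : C * H r ^ n * δ * r ≤ lam r * r := by gcongr
    linarith
  have k3 : ‖L (q - x)‖ ≤ lam r * r / 16 := by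
    have hlam : 0 ≤ lam r := by
      have : 0 ≤ H r * lam r := (norm_nonneg L).trans hL
      exact nonneg_of_mul_nonneg_right this hH0
    calc ‖L (q - x)‖ ≤ ‖L‖ * ‖q - x‖ := L.le_opNorm _
      _ ≤ (H r * lam r) * (η * r) := by gcongr
      _ = lam r * r / 16 := by
        rw [hη]
        field_simp
  refine ⟨q, hq.trans (by nlinarith), ?_⟩
  have e1 : f r q - F x = (f r q - c - L (q - x)) + L (q - x) - (F x - c) := by abel
  rw [e1]
  calc _ ≤ ‖f r q - c - L (q - x)‖ + ‖L (q - x)‖ + ‖F x - c‖ :=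
        (norm_sub_le _ _).trans (by gcongr; exact norm_add_le _ _)
    _ ≤ lam r * r / 32 + lam r * r / 16 + lam r * r / 32 := by
        gcongr
        · exact hqv.trans k1
        · exact hF.trans k2
    _ = _ := by ring

/-- coarse discs give smooth discs -/
theorem emb {C : ℝ} (hC : CE n ≤ C) {e : W →L[ℝ] ℝ} (he : ‖e‖ ≤ 1) {U : Set (E n)}
    {F0 : E n → W} {S : Set ℝ} {f : ℝ → E n → W} {τ lam H : ℝ → ℝ}
    {T : (E n →L[ℝ] W) → ℝ → Prop} (h : CData n U F0 S f τ (QE C e f lam H T))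
    (hlam : ∀ r ∈ S, 0 < r → 0 < lam r ∧ 1 ≤ H r)
    (hsep : ∀ r ∈ S, 0 < r → ∀ q q' : E n, ‖q‖ ≤ 1 → ‖q'‖ ≤ 1 → r / 2 ≤ ‖q - q'‖ →
      lam r * r ≤ ‖f r q - f r q'‖)
    (hinj : ∀ z ∈ U, ∀ w ∈ U, ‖z‖ ≤ 1 → ‖w‖ ≤ 1 → F0 z = F0 w → z = w)
    (himm : ∀ z ∈ U, ‖z‖ ≤ 1 → ∀ v, fderiv ℝ F0 z v = 0 → v = 0)
    (hpos : ∀ z ∈ U, ‖z‖ < 1 → 0 < e (F0 z)) :
    ∃ F : E n → W, (∀ x, ‖x‖ ≤ 1 → ContDiffAt ℝ ∞ F x) ∧
      (∀ x y, ‖x‖ ≤ 1 → ‖y‖ ≤ 1 → F x = F y → x = y) ∧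
      (∀ x, ‖x‖ ≤ 1 → ∀ v, fderiv ℝ F x v = 0 → v = 0) ∧ (∀ x, ‖x‖ < 1 → 0 < e (F x)) ∧
      (∀ z, ‖z‖ = 1 → F =ᶠ[𝓝 z] F0) ∧
      ∀ x, ‖x‖ < 1 → (x ∈ U ∧ F =ᶠ[𝓝 x] F0) ∨ ∃ (L : E n →L[ℝ] W) (δ : ℝ), T L δ ∧ 0 ≤ δ ∧
        ‖fderiv ℝ F x - L‖ ≤ CD n * δ := by
  obtain ⟨Cc, hCc, hCc1, hCcU, hev⟩ := h.smooth
  have hne : (𝓝[S ∩ Ioi 0] (0 : ℝ)).NeBot := mem_closure_iff_nhdsWithin_neBot.1 h.acc
  obtain ⟨r, ⟨F, hFs, hF0, hFC⟩, hrS⟩ := (hev.and self_mem_nhdsWithin).exists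
  have hr : 0 < r := hrS.2
  obtain ⟨hlam0, hH1⟩ := hlam r hrS.1 hr
  have hsep' := hsep r hrS.1 hr
  have hCD := CD_one (n := n)
  have hC32 : 32 * CD n ≤ C := CE_ge.trans hC
  have hnear : ∀ x, x ∉ Cc → F =ᶠ[𝓝 x] F0 := by
    intro x hx
    filter_upwards [hCc.isClosed.isOpen_compl.mem_nhds hx] with y hy
    exact hF0 y hy
  have hlr : 0 < lam r * r := by positivity
  -- injectivity, one point in `Cc`
  have key : ∀ x ∈ Cc, ∀ y, ‖y‖ ≤ 1 → F x = F y → x = y := by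
    intro x hx y hy hxy
    obtain ⟨L, δ, c, hδ, hQ, hA, hD, hFc⟩ := hFC x hx
    by_contra hne'
    rcases le_or_gt ‖y - x‖ r with hle | hgt
    · obtain ⟨m, hm1, hm2⟩ := hQ.1
      have hx0 : x ∈ closedBall x r := mem_closedBall_self hr.le
      have hy0 : y ∈ closedBall x r := by rwa [mem_closedBall, dist_eq_norm]
      have h1 := Convex.norm_image_sub_le_of_norm_fderiv_le' (𝕜 := ℝ) (f := F) (φ := L)
        (C := CD n * δ) (s := closedBall x r) (fun z hz => ?_) (fun z hz => ?_)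
        (convex_closedBall x r) hx0 hy0
      · rw [← hxy, sub_self, zero_sub, norm_neg] at h1
        have h2 := hm1 (y - x)
        have h3 : 0 < ‖y - x‖ := norm_pos_iff.2 (sub_ne_zero.2 (Ne.symm hne'))
        have h4 : CD n * δ ≤ C * δ := by
          gcongr
          linarith
        nlinarith
      · rw [mem_closedBall, dist_eq_norm] at hz
        exact (hFs z (hD z hz).1.le).differentiableAt (by simp)
      · rw [mem_closedBall, dist_eq_norm] at hz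
        exact (hD z hz).2.1
    · obtain ⟨q, hq, hqv⟩ := near hC hr hH1 hδ hQ hA hFc
      have hq1 : ‖q‖ ≤ 1 := (hD q (hq.trans (by linarith))).1.le
      by_cases hyC : y ∈ Cc
      · obtain ⟨L', δ', c', hδ', hQ', hA', hD', hFc'⟩ := hFC y hyC
        obtain ⟨q', hq', hqv'⟩ := near hC hr hH1 hδ' hQ' hA' hFc'
        have hq1' : ‖q'‖ ≤ 1 := (hD' q' (hq'.trans (by linarith))).1.le
        have h1 : r / 2 ≤ ‖q - q'‖ := by
          have : ‖y - x‖ ≤ ‖q - q'‖ + ‖q - x‖ + ‖q' - y‖ := by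
            calc ‖y - x‖ = ‖-(q - q') + (q - x) - (q' - y)‖ := by congr 1; abel
              _ ≤ ‖-(q - q') + (q - x)‖ + ‖q' - y‖ := norm_sub_le _ _
              _ ≤ ‖-(q - q')‖ + ‖q - x‖ + ‖q' - y‖ := by gcongr; exact norm_add_le _ _
              _ = _ := by rw [norm_neg]
          linarith
        have h2 := hsep' q q' hq1 hq1' h1
        have h3 : ‖f r q - f r q'‖ ≤ ‖f r q - F x‖ + ‖f r q' - F y‖ := by
          rw [← hxy]
          calc ‖f r q - f r q'‖ = ‖(f r q - F x) - (f r q' - F x)‖ := by congr 1; abel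
            _ ≤ _ := norm_sub_le _ _
        linarith
      · have hyU := hCcU y hy hyC
        have hfy : f r y = F y := by rw [hF0 y hyC, h.eqU r hrS.1 y hyU hy]
        have h1 : r / 2 ≤ ‖q - y‖ := by
          have : ‖y - x‖ ≤ ‖q - y‖ + ‖q - x‖ := by
            calc ‖y - x‖ = ‖-(q - y) + (q - x)‖ := by congr 1; abel
              _ ≤ ‖-(q - y)‖ + ‖q - x‖ := norm_add_le _ _
              _ = _ := by rw [norm_neg]
          linarith
        have h2 := hsep' q y hq1 hy h1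
        rw [hfy, ← hxy] at h2
        linarith
  refine ⟨F, hFs, fun x y hx hy hxy => ?_, fun x hx v hv => ?_, fun x hx => ?_, fun z hz => ?_,
    fun x hx => ?_⟩
  · by_cases hxC : x ∈ Cc
    · exact key x hxC y hy hxy
    · by_cases hyC : y ∈ Cc
      · exact (key y hyC x hx hxy.symm).symm
      · exact hinj x (hCcU x hx hxC) y (hCcU y hy hyC) hx hy (by
          rw [← hF0 x hxC, ← hF0 y hyC, hxy])
  · by_cases hxC : x ∈ Cc
    · obtain ⟨L, δ, c, hδ, hQ, hA, hD, hFc⟩ := hFC x hxC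
      obtain ⟨m, hm1, hm2⟩ := hQ.1
      have h1 := (hD x (by simpa using hr.le)).2.1
      have h2 : ‖(fderiv ℝ F x - L) v‖ ≤ CD n * δ * ‖v‖ :=
        (ContinuousLinearMap.le_opNorm _ _).trans (by gcongr)
      rw [sub_apply, hv, zero_sub, norm_neg] at h2
      have h3 := hm1 v
      have h4 : CD n * δ ≤ C * δ := by
        gcongr
        linarith
      by_contra hv0
      have h5 : 0 < ‖v‖ := norm_pos_iff.2 hv0
      nlinarith
    · rw [(hnear x hxC).fderiv_eq] at hv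
      exact himm x (hCcU x hx hxC) hx v hv
  · by_cases hxC : x ∈ Cc
    · obtain ⟨L, δ, c, hδ, hQ, hA, hD, hFc⟩ := hFC x hxC
      obtain ⟨q, hq, hqv⟩ := near hC hr hH1 hδ hQ hA hFc
      obtain ⟨L', δ', hQ'⟩ := (hD q (hq.trans (by linarith))).2.2
      have h1 : lam r * r ≤ e (f r q) := hQ'.2.2.2.1
      have h2 : ‖e (f r q - F x)‖ ≤ lam r * r / 8 := by
        refine (e.le_opNorm _).trans ?_
        calc ‖e‖ * ‖f r q - F x‖ ≤ 1 * (lam r * r / 8) := by gcongr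
          _ = _ := one_mul _
      rw [map_sub, Real.norm_eq_abs] at h2
      have h3 := (abs_le.1 h2).2
      linarith
    · rw [hF0 x hxC]
      exact hpos x (hCcU x hx.le hxC) hx
  · refine hnear z fun hz' => ?_
    have := hCc1 z hz'
    linarith
  · by_cases hxC : x ∈ Cc
    · obtain ⟨L, δ, c, hδ, hQ, hA, hD, hFc⟩ := hFC x hxC
      exact Or.inr ⟨L, δ, hQ.2.2.2.2, hδ, (hD x (by simpa using hr.le)).2.1⟩
    · exact Or.inl ⟨hCcU x hx.le hxC, hnear x hxC⟩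

end Pool.Agent.N824.CD
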