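import Pool.Agent.N824.CD.Emb
import Pool.Agent.N824.CD.Back

/-!
# Coarse discs: embeddings, without a height
-/

set_option autoImplicit false
set_option maxSynthPendingDepth 3

open Set Filter Topology Metric Function MeasureTheory
open scoped Manifold ContDiff Convolution

set_option linter.unusedSectionVars false

noncomputable section

namespace Pool.Agent.N824.CD

open Pool.Agent.Y522 Pool.Agent.Y954.SH Pool.Agent.N824.CR Pool.Agent.N824.CN Pool.Agent.N824.CJ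

variable {n : ℕ} {W : Type} [NormedAddCommGroup W] [NormedSpace ℝ W] [FiniteDimensional ℝ W]

/-- the condition at a point -/
def QG (C : ℝ) (lam H : ℝ → ℝ) (r : ℝ) (_ : E n) (L : E n →L[ℝ] W) (δ : ℝ) : Prop :=
  (∃ m : ℝ, (∀ v, m * ‖v‖ ≤ ‖L v‖) ∧ C * δ < m) ∧ ‖L‖ ≤ H r * lam r ∧ C * H r ^ n * δ ≤ lam r

/-- a point with a good value -/
theorem nearG {C : ℝ} (hC : CE n ≤ C) {f : ℝ → E n → W} {lam H : ℝ → ℝ}
    {r : ℝ} {x : E n} {L : E n →L[ℝ] W} {δ : ℝ} {c : W}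
    {F : E n → W} (hr : 0 < r) (hH : 1 ≤ H r) (hδ : 0 ≤ δ)
    (hQ : QG C lam H r x L δ) (hA : AC n (f r) x r δ L c)
    (hF : ‖F x - c‖ ≤ CD n * (δ * r)) :
    ∃ q, ‖q - x‖ ≤ r / 4 ∧ ‖f r q - F x‖ ≤ lam r * r / 8 := by
  obtain ⟨-, hL, hCH⟩ := hQ
  have hH0 : 0 < H r := by linarith
  obtain ⟨η, hη⟩ : ∃ η : ℝ, η = 1 / (16 * H r) := ⟨_, rfl⟩
  have hη0 : 0 < η := by rw [hη]; positivity
  have hη1 : η ≤ 1 / 16 := by
    rw [hη]
    exact one_div_le_one_div_of_le (by norm_num) (by linarith)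
  obtain ⟨q, hq, hqv⟩ := hA.good hr hη0 (hη1.trans (by norm_num))
  have hVB := VB_pos (n := n)
  have hCD := CD_one (n := n)
  have hHn : 1 ≤ H r ^ n := one_le_pow₀ hH
  have k1 : (VB n)⁻¹ * (η ^ n)⁻¹ * (δ * r) ≤ lam r * r / 32 := by
    have e1 : (η ^ n)⁻¹ = 16 ^ n * H r ^ n := by
      rw [hη, one_div, inv_pow, inv_inv, mul_pow]
    rw [e1]
    have e2 : 32 * ((VB n)⁻¹ * 16 ^ n) ≤ C := by
      refine le_trans ?_ hC
      unfold CE
      nlinarith
    have e3 : 32 * ((VB n)⁻¹ * 16 ^ n) * (H r ^ n * δ * r) ≤ C * (H r ^ n * δ * r) := by gcongr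
    have e4 : C * (H r ^ n * δ * r) ≤ lam r * r := by
      calc C * (H r ^ n * δ * r) = (C * H r ^ n * δ) * r := by ring
        _ ≤ lam r * r := by gcongr
    nlinarith
  have k2 : CD n * (δ * r) ≤ lam r * r / 32 := by
    have e2 : 32 * CD n ≤ C := CE_ge.trans hC
    have hC0 : 0 ≤ C := by nlinarith
    have e3 : 32 * CD n * (δ * r) ≤ C * (δ * r) := by gcongr
    have e4 : C * (δ * r) ≤ C * H r ^ n * δ * r := by
      have : C * (δ * r) * 1 ≤ C * (δ * r) * H r ^ n := by gcongr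
      linarith
    have e5 : C * H r ^ n * δ * r ≤ lam r * r := by gcongr
    linarith
  have k3 : ‖L (q - x)‖ ≤ lam r * r / 16 := by
    have hlam : 0 ≤ lam r := by
      have : 0 ≤ H r * lam r := (norm_nonneg L).trans hL
      exact nonneg_of_mul_nonneg_right this hH0
    calc ‖L (q - x)‖ ≤ ‖L‖ * ‖q - x‖ := L.le_opNorm _
      _ ≤ (H r * lam r) * (η * r) := by gcongr
      _ = lam r * r / 16 := by
        rw [hη]
        field_simp
  refine ⟨q, hq.trans (by nlinarith), ?_⟩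
  have e1 : f r q - F x = (f r q - c - L (q - x)) + L (q - x) - (F x - c) := by abel
  rw [e1]
  calc _ ≤ ‖f r q - c - L (q - x)‖ + ‖L (q - x)‖ + ‖F x - c‖ :=
        (norm_sub_le _ _).trans (by gcongr; exact norm_add_le _ _)
    _ ≤ lam r * r / 32 + lam r * r / 16 + lam r * r / 32 := by
        gcongr
        · exact hqv.trans k1
        · exact hF.trans k2
    _ = _ := by ring

/-- coarse balls give smooth balls -/
theorem embG {C : ℝ} (hC : CE n ≤ C) {U : Set (E n)}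
    {F0 : E n → W} {S : Set ℝ} {f : ℝ → E n → W} {τ lam H : ℝ → ℝ}
    (h : CData n U F0 S f τ (QG C lam H))
    (hlam : ∀ r ∈ S, 0 < r → 0 < lam r ∧ 1 ≤ H r)
    (hsep : ∀ r ∈ S, 0 < r → ∀ q q' : E n, ‖q‖ ≤ 1 → ‖q'‖ ≤ 1 → r / 2 ≤ ‖q - q'‖ →
      lam r * r ≤ ‖f r q - f r q'‖)
    (hinj : ∀ z ∈ U, ∀ w ∈ U, ‖z‖ ≤ 1 → ‖w‖ ≤ 1 → F0 z = F0 w → z = w)
    (himm : ∀ z ∈ U, ‖z‖ ≤ 1 → ∀ v, fderiv ℝ F0 z v = 0 → v = 0) :
    ∃ F : E n → W, (∀ x, ‖x‖ ≤ 1 → ContDiffAt ℝ ∞ F x) ∧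
      (∀ x y, ‖x‖ ≤ 1 → ‖y‖ ≤ 1 → F x = F y → x = y) ∧
      (∀ x, ‖x‖ ≤ 1 → ∀ v, fderiv ℝ F x v = 0 → v = 0) ∧ ∀ z, ‖z‖ = 1 → F =ᶠ[𝓝 z] F0 := by
  obtain ⟨Cc, hCc, hCc1, hCcU, hev⟩ := h.smooth
  have hne : (𝓝[S ∩ Ioi 0] (0 : ℝ)).NeBot := mem_closure_iff_nhdsWithin_neBot.1 h.acc
  obtain ⟨r, ⟨F, hFs, hF0, hFC⟩, hrS⟩ := (hev.and self_mem_nhdsWithin).exists
  have hr : 0 < r := hrS.2
  obtain ⟨hlam0, hH1⟩ := hlam r hrS.1 hr
  have hsep' := hsep r hrS.1 hr
  have hCD := CD_one (n := n)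
  have hC32 : 32 * CD n ≤ C := CE_ge.trans hC
  have hnear : ∀ x, x ∉ Cc → F =ᶠ[𝓝 x] F0 := by
    intro x hx
    filter_upwards [hCc.isClosed.isOpen_compl.mem_nhds hx] with y hy
    exact hF0 y hy
  have hlr : 0 < lam r * r := by positivity
  -- injectivity, one point in `Cc`
  have key : ∀ x ∈ Cc, ∀ y, ‖y‖ ≤ 1 → F x = F y → x = y := by
    intro x hx y hy hxy
    obtain ⟨L, δ, c, hδ, hQ, hA, hD, hFc⟩ := hFC x hx
    by_contra hne'
    rcases le_or_gt ‖y - x‖ r with hle | hgt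
    · obtain ⟨m, hm1, hm2⟩ := hQ.1
      have hx0 : x ∈ closedBall x r := mem_closedBall_self hr.le
      have hy0 : y ∈ closedBall x r := by rwa [mem_closedBall, dist_eq_norm]
      have h1 := Convex.norm_image_sub_le_of_norm_fderiv_le' (𝕜 := ℝ) (f := F) (φ := L)
        (C := CD n * δ) (s := closedBall x r) (fun z hz => ?_) (fun z hz => ?_)
        (convex_closedBall x r) hx0 hy0
      · rw [← hxy, sub_self, zero_sub, norm_neg] at h1
        have h2 := hm1 (y - x)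
        have h3 : 0 < ‖y - x‖ := norm_pos_iff.2 (sub_ne_zero.2 (Ne.symm hne'))
        have h4 : CD n * δ ≤ C * δ := by
          gcongr
          linarith
        nlinarith
      · rw [mem_closedBall, dist_eq_norm] at hz
        exact (hFs z (hD z hz).1.le).differentiableAt (by simp)
      · rw [mem_closedBall, dist_eq_norm] at hz
        exact (hD z hz).2.1
    · obtain ⟨q, hq, hqv⟩ := nearG hC hr hH1 hδ hQ hA hFc
      have hq1 : ‖q‖ ≤ 1 := (hD q (hq.trans (by linarith))).1.le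
      by_cases hyC : y ∈ Cc
      · obtain ⟨L', δ', c', hδ', hQ', hA', hD', hFc'⟩ := hFC y hyC
        obtain ⟨q', hq', hqv'⟩ := nearG hC hr hH1 hδ' hQ' hA' hFc'
        have hq1' : ‖q'‖ ≤ 1 := (hD' q' (hq'.trans (by linarith))).1.le
        have h1 : r / 2 ≤ ‖q - q'‖ := by
          have : ‖y - x‖ ≤ ‖q - q'‖ + ‖q - x‖ + ‖q' - y‖ := by
            calc ‖y - x‖ = ‖-(q - q') + (q - x) - (q' - y)‖ := by congr 1; abel
              _ ≤ ‖-(q - q') + (q - x)‖ + ‖q' - y‖ := norm_sub_le _ _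
              _ ≤ ‖-(q - q')‖ + ‖q - x‖ + ‖q' - y‖ := by gcongr; exact norm_add_le _ _
              _ = _ := by rw [norm_neg]
          linarith
        have h2 := hsep' q q' hq1 hq1' h1
        have h3 : ‖f r q - f r q'‖ ≤ ‖f r q - F x‖ + ‖f r q' - F y‖ := by
          rw [← hxy]
          calc ‖f r q - f r q'‖ = ‖(f r q - F x) - (f r q' - F x)‖ := by congr 1; abel
            _ ≤ _ := norm_sub_le _ _
        linarith
      · have hyU := hCcU y hy hyC
        have hfy : f r y = F y := by rw [hF0 y hyC, h.eqU r hrS.1 y hyU hy]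
        have h1 : r / 2 ≤ ‖q - y‖ := by
          have : ‖y - x‖ ≤ ‖q - y‖ + ‖q - x‖ := by
            calc ‖y - x‖ = ‖-(q - y) + (q - x)‖ := by congr 1; abel
              _ ≤ ‖-(q - y)‖ + ‖q - x‖ := norm_add_le _ _
              _ = _ := by rw [norm_neg]
          linarith
        have h2 := hsep' q y hq1 hy h1
        rw [hfy, ← hxy] at h2
        linarith
  refine ⟨F, hFs, fun x y hx hy hxy => ?_, fun x hx v hv => ?_, fun z hz => ?_⟩
  · by_cases hxC : x ∈ Cc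
    · exact key x hxC y hy hxy
    · by_cases hyC : y ∈ Cc
      · exact (key y hyC x hx hxy.symm).symm
      · exact hinj x (hCcU x hx hxC) y (hCcU y hy hyC) hx hy (by
          rw [← hF0 x hxC, ← hF0 y hyC, hxy])
  · by_cases hxC : x ∈ Cc
    · obtain ⟨L, δ, c, hδ, hQ, hA, hD, hFc⟩ := hFC x hxC
      obtain ⟨m, hm1, hm2⟩ := hQ.1
      have h1 := (hD x (by simpa using hr.le)).2.1
      have h2 : ‖(fderiv ℝ F x - L) v‖ ≤ CD n * δ * ‖v‖ :=
        (ContinuousLinearMap.le_opNorm _ _).trans (by gcongr)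
      rw [sub_apply, hv, zero_sub, norm_neg] at h2
      have h3 := hm1 v
      have h4 : CD n * δ ≤ C * δ := by
        gcongr
        linarith
      by_contra hv0
      have h5 : 0 < ‖v‖ := norm_pos_iff.2 hv0
      nlinarith
    · rw [(hnear x hxC).fderiv_eq] at hv
      exact himm x (hCcU x hx hxC) hx v hv
  · refine hnear z fun hz' => ?_
    have := hCc1 z hz'
    linarith

/-- smooth balls are coarse balls -/
theorem backG (C : ℝ) {φ : E n → W} (hs : ∀ x, ‖x‖ ≤ 1 → ContDiffAt ℝ ∞ φ x)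
    (hinj : ∀ x y, ‖x‖ ≤ 1 → ‖y‖ ≤ 1 → φ x = φ y → x = y)
    (himm : ∀ x, ‖x‖ ≤ 1 → ∀ v, fderiv ℝ φ x v = 0 → v = 0) :
    ∃ (τ : ℝ → ℝ) (lam H : ℝ), Tendsto τ (𝓝[>] 0) (𝓝 0) ∧ 0 < lam ∧ 1 ≤ H ∧
      (∀ r, 0 < r → ∀ q q' : E n, ‖q‖ ≤ 1 → ‖q'‖ ≤ 1 → r / 2 ≤ ‖q - q'‖ →
        lam * r ≤ ‖φ q - φ q'‖) ∧
      ∀ x : E n, ‖x‖ < 1 → ∃ ρ : ℝ, 0 < ρ ∧ ∀ p : E n,
        ‖p - x‖ < ρ → ∀ r, 0 < r → r < ρ → ∃ (L : E n →L[ℝ] W) (δ : ℝ) (c : W), 0 ≤ δ ∧
          (1 + ‖L‖) * r ≤ δ * τ r ∧ AC n φ p r δ L c ∧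
          QG C (fun _ => lam) (fun _ => H) r p L δ := by
  obtain ⟨c0, hc0, hlow⟩ := lowerBd hs hinj himm
  obtain ⟨B, hB⟩ := (isCompact_closedBall (0 : E n) 1).exists_bound_of_continuousOn
    (f := fun x => fderiv ℝ φ x) (fun x hx => by
      have hx1 : ‖x‖ ≤ 1 := mem_closedBall_zero_iff.1 hx
      exact ((hs x hx1).fderiv_right (m := 0) (by simp)).continuousAt.continuousWithinAt)
  have hB' : ∀ x : E n, ‖x‖ ≤ 1 → ‖fderiv ℝ φ x‖ ≤ B := fun x hx =>
    hB x (mem_closedBall_zero_iff.2 hx)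
  have hB0 : 0 ≤ B := (norm_nonneg _).trans (hB' 0 (by simp))
  obtain ⟨H, hH⟩ : ∃ H : ℝ, H = max 1 (2 * B / c0) := ⟨_, rfl⟩
  have hH1 : 1 ≤ H := by rw [hH]; exact le_max_left _ _
  have hHB : B ≤ H * (c0 / 2) := by
    have h1 : 2 * B / c0 ≤ H := by rw [hH]; exact le_max_right _ _
    rw [div_le_iff₀ hc0] at h1
    linarith
  have hsq : Tendsto Real.sqrt (𝓝 0) (𝓝 0) := by
    have h1 : Tendsto Real.sqrt (𝓝 0) (𝓝 (Real.sqrt 0)) := Real.continuous_sqrt.continuousAt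
    rwa [Real.sqrt_zero] at h1
  refine ⟨fun r => (1 + B) * Real.sqrt r, c0 / 2, H, ?_, by positivity, hH1,
    fun r hr q q' hq hq' hqq => ?_, fun x hx => ?_⟩
  · have h1 := (hsq.const_mul (1 + B)).mono_left (nhdsWithin_le_nhds (s := Ioi (0 : ℝ)))
    rwa [mul_zero] at h1
  · refine le_trans ?_ (hlow q q' hq hq')
    nlinarith
  · obtain ⟨ρq, Cq, hρq, hCq, hdq, hquad⟩ := quad_ballW (hs x hx.le) (show (0 : ℝ) < 1 / 2 by
      norm_num)
    have hVB := VB_nonneg (n := n)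
    -- small scales
    have hlim : ∀ (k b : ℝ), 0 < b → ∀ᶠ r in 𝓝 (0 : ℝ), k * Real.sqrt r < b := by
      intro k b hb
      have h1 := hsq.const_mul k
      rw [mul_zero] at h1
      exact h1.eventually_lt_const hb
    obtain ⟨ρs, hρs, hbs⟩ := Metric.mem_nhds_iff.1
      (((hlim (Cq * 4 * 2 ^ n * VB n) 1 one_pos).and (hlim C c0 hc0)).and
        (hlim (C * H ^ n) (c0 / 2) (by positivity)))
    obtain ⟨ρ, hρ⟩ : ∃ ρ : ℝ, ρ = min (min (ρq / 3) ρs) (min 1 ((1 - ‖x‖) / 3)) := ⟨_, rfl⟩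
    have hρ0 : 0 < ρ := by
      rw [hρ]
      have h1 : 0 < 1 - ‖x‖ := by linarith
      exact lt_min (lt_min (by positivity) hρs) (lt_min one_pos (by positivity))
    have a1 : ρ ≤ ρq / 3 := by rw [hρ]; exact (min_le_left _ _).trans (min_le_left _ _)
    have a3 : ρ ≤ ρs := by rw [hρ]; exact (min_le_left _ _).trans (min_le_right _ _)
    have a4 : ρ ≤ 1 := by rw [hρ]; exact (min_le_right _ _).trans (min_le_left _ _)
    have a5 : ρ ≤ (1 - ‖x‖) / 3 := by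
      rw [hρ]; exact (min_le_right _ _).trans (min_le_right _ _)
    refine ⟨ρ, hρ0, fun p hp r hr hrρ => ?_⟩
    have hbsr := hbs (show r ∈ ball 0 ρs by
      rw [mem_ball_zero_iff, Real.norm_of_nonneg hr.le]
      linarith)
    obtain ⟨⟨s1, s2⟩, s3⟩ := hbsr
    have hss : Real.sqrt r * Real.sqrt r = r := Real.mul_self_sqrt hr.le
    have hs0 : 0 < Real.sqrt r := Real.sqrt_pos.2 hr
    have hball : ∀ q, ‖q - p‖ ≤ 2 * r → ‖q‖ < 1 ∧ ‖q - x‖ < ρq := by
      intro q hq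
      have h1 : ‖q - x‖ ≤ ‖q - p‖ + ‖p - x‖ := by
        calc ‖q - x‖ = ‖(q - p) + (p - x)‖ := by congr 1; abel
          _ ≤ _ := norm_add_le _ _
      have h2 : ‖q‖ ≤ ‖q - x‖ + ‖x‖ := by
        calc ‖q‖ = ‖(q - x) + x‖ := by congr 1; abel
          _ ≤ _ := norm_add_le _ _
      constructor <;> linarith
    have hp1 := (hball p (by simp; positivity)).1
    have hpd : DifferentiableAt ℝ φ p := (hs p hp1.le).differentiableAt (by simp)
    refine ⟨fderiv ℝ φ p, Real.sqrt r, φ p, hs0.le, ?_, ⟨?_, ?_⟩, ⟨c0, fun v => ?_, s2⟩, ?_, ?_⟩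
    · have h1 := hB' p hp1.le
      calc (1 + ‖fderiv ℝ φ p‖) * r ≤ (1 + B) * r := by gcongr
        _ = Real.sqrt r * ((1 + B) * Real.sqrt r) := by
          rw [mul_left_comm, hss]
    · refine ContinuousOn.integrableOn_compact (isCompact_closedBall _ _) fun q hq => ?_
      rw [mem_closedBall, dist_eq_norm] at hq
      exact (hs q (hball q hq).1.le).continuousAt.continuousWithinAt
    · have h1 : ∀ q, ‖q - p‖ ≤ 2 * r →
          ‖φ q - φ p - fderiv ℝ φ p (q - p)‖ ≤ Cq * (2 * r) * (2 * r) := by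
        intro q hq
        refine (hquad p (2 * r) (fun q hq => (hball q hq).2) q hq).trans ?_
        gcongr
      have h3 : ‖∫ q in closedBall p (2 * r), ‖φ q - φ p - fderiv ℝ φ p (q - p)‖‖ ≤
          Cq * (2 * r) * (2 * r) *
            (volume : Measure (E n)).real (closedBall p (2 * r)) := by
        refine norm_setIntegral_le_of_norm_le_const measure_closedBall_lt_top fun q hq => ?_
        rw [mem_closedBall, dist_eq_norm] at hq
        rw [norm_norm]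
        exact h1 q hq
      rw [vol_cb p (by positivity : 0 < 2 * r)] at h3
      refine ((le_abs_self _).trans h3).trans ?_
      have e1 : Cq * (2 * r) * (2 * r) * ((2 * r) ^ n * VB n) =
          (Cq * 4 * 2 ^ n * VB n * Real.sqrt r) * (Real.sqrt r * r ^ (n + 1)) := by
        rw [mul_pow, pow_succ]
        have : Cq * 4 * 2 ^ n * VB n * Real.sqrt r * (Real.sqrt r * (r ^ n * r)) =
            Cq * 4 * 2 ^ n * VB n * (Real.sqrt r * Real.sqrt r) * (r ^ n * r) := by ring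
        rw [this, hss]
        ring
      rw [e1]
      have h4 : 0 ≤ Real.sqrt r * r ^ (n + 1) := by positivity
      nlinarith
    · refine lowerD hpd ?_ v
      filter_upwards [(isOpen_lt continuous_norm continuous_const).mem_nhds hp1] with y hy
      have hy' : ‖y‖ < 1 := hy
      exact hlow y p hy'.le hp1.le
    · exact (hB' p hp1.le).trans hHB
    · exact s3.le

end Pool.Agent.N824.CD
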