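import Pool.Agent.N824.CJ.Loc

/-!
# Coarse discs: mollification of maps which are affine in the mean, on a Euclidean space
-/

set_option autoImplicit false
set_option maxSynthPendingDepth 3

open Set Filter Topology Metric Function MeasureTheory
open scoped Manifold ContDiff Convolution

set_option linter.unusedSectionVars false

noncomputable section

namespace Pool.Agent.N824.CD

open Pool.Agent.Y522 Pool.Agent.Y954.SH Pool.Agent.N824.CR Pool.Agent.N824.CN Pool.Agent.N824.CJ

variable {n : ℕ} {W : Type} [NormedAddCommGroup W] [NormedSpace ℝ W] [FiniteDimensional ℝ W]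

lemma K_even (t : E n) : K n (-t) = K n t := by
  unfold K kz
  rw [norm_neg]

lemma K_lin_zero (M : E n →L[ℝ] W) : ∫ t, K n t • M t = 0 := by
  have h1 : ∫ t, K n (-t) • M (-t) = ∫ t, K n t • M t :=
    integral_neg_eq_self (fun t => K n t • M t) volume
  have h2 : ∀ t : E n, K n (-t) • M (-t) = -(K n t • M t) := fun t => by
    rw [K_even, map_neg, smul_neg]
  simp only [h2] at h1
  rw [integral_neg] at h1
  have h3 : (2 : ℝ) • ∫ t, K n t • M t = 0 := by
    rw [two_smul]
    nth_rewrite 1 [← h1]
    exact neg_add_cancel _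
  exact (smul_eq_zero.1 h3).resolve_left two_ne_zero

/-- the mollification of a map which is almost affine in the mean -/
theorem Ml_amean {G : E n → W} {R r : ℝ} {p : E n} (c : W) (M : E n →L[ℝ] W)
    (hG : IntegrableOn G (closedBall 0 R)) (hr : 0 < r) (hp : ‖p‖ + r ≤ R) :
    ‖Ml n G R r p - c‖ ≤
      MK n * (r ^ n)⁻¹ * ∫ s in closedBall p r, ‖G s - c - M (s - p)‖ := by
  have hsub : closedBall p r ⊆ closedBall 0 R := by
    intro s hs
    rw [mem_closedBall, dist_eq_norm] at hs
    rw [mem_closedBall_zero_iff]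
    calc ‖s‖ = ‖(s - p) + p‖ := by congr 1; abel
      _ ≤ ‖s - p‖ + ‖p‖ := norm_add_le _ _
      _ ≤ R := by linarith
  have hk := (kk_int hG hr).locallyIntegrable
  have hki : Integrable (K n) := K_integrable
  have hc1 : ConvolutionExistsAt (K n) (kk n G R r) (r⁻¹ • p) (LW W).flip volume :=
      (K_cpt.convolutionExists_left _ K_smooth.continuous hk) _
  have hc1' : Integrable (fun t => K n t • kk n G R r (r⁻¹ • p - t)) := by
    refine hc1.congr (Eventually.of_forall fun t => ?_)
    show (LW W) (kk n G R r (r⁻¹ • p - t)) (K n t) = _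
    rw [LW_apply]
  have hKM : Integrable (fun t : E n => K n t • M t) :=
    ((K_smooth.continuous).smul M.continuous).integrable_of_hasCompactSupport
      (K_cpt.smul_right)
  have hKM' : Integrable (fun t : E n => r • (K n t • M t)) := hKM.smul r
  have hKc : Integrable (fun t : E n => K n t • (c - r • M t)) := by
    have h1 : (fun t : E n => K n t • (c - r • M t)) =
        fun t => K n t • c - r • (K n t • M t) := by
      funext t
      rw [smul_sub, smul_comm]
    rw [h1]
    exact (hki.smul_const _).sub hKM'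
  have h1 : c = ∫ t, K n t • (c - r • M t) := by
    have h0 : ∀ t : E n, K n t • (c - r • M t) = K n t • c - r • (K n t • M t) := fun t => by
      rw [smul_sub, smul_comm]
    simp only [h0]
    rw [integral_sub (hki.smul_const _) hKM', integral_smul_const, K_int, one_smul,
      integral_smul, K_lin_zero, smul_zero, sub_zero]
  have h2 : Ml n G R r p - c = ∫ t, K n t • (kk n G R r (r⁻¹ • p - t) - (c - r • M t)) := by
    unfold Pool.Agent.N824.CN.Ml
    rw [convolution_eq_swap]
    simp only [LW_apply]
    conv_lhs => rw [h1]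
    rw [← integral_sub hc1' hKc]
    refine integral_congr_ae (Eventually.of_forall fun t => ?_)
    simp only [smul_sub]
  rw [h2]
  have hgi : IntegrableOn (fun s => ‖G s - c - M (s - p)‖) (closedBall p r) := by
    refine Integrable.norm (Integrable.sub ((hG.mono_set hsub).sub ?_) ?_)
    · exact integrableOn_const (by exact measure_closedBall_lt_top.ne)
    · refine (Continuous.continuousOn ?_).integrableOn_compact (isCompact_closedBall p r)
      exact M.continuous.comp (continuous_id.sub continuous_const)
  obtain ⟨F, hF⟩ : ∃ F : E n → ℝ, F = (closedBall p r).indicator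
    (fun s => ‖G s - c - M (s - p)‖) := ⟨_, rfl⟩
  have hFi : Integrable F := by
    rw [hF, integrable_indicator_iff measurableSet_closedBall]
    exact hgi
  have hFc : Integrable fun t : E n => F (p - r • t) := by
    have h1 : Integrable fun y : E n => F (p - y) := hFi.comp_sub_left p
    exact h1.comp_smul hr.ne'
  have e4 : ∫ s in closedBall p r, ‖G s - c - M (s - p)‖ = ∫ s, F s := by
    rw [hF, integral_indicator measurableSet_closedBall]
  have e5 := integral_ball hr p F
  have key : ‖∫ t, K n t • (kk n G R r (r⁻¹ • p - t) - (c - r • M t))‖ ≤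
      ∫ t, MK n * F (p - r • t) := by
    refine norm_integral_le_of_norm_le (hFc.const_mul _) (Eventually.of_forall fun t => ?_)
    rw [norm_smul]
    rcases le_or_gt ‖t‖ 1 with ht | ht
    · rw [Pool.Agent.N824.CN.kk_eq hr hp ht]
      have h2 : p - r • t ∈ closedBall p r := by
        rw [mem_closedBall, dist_eq_norm, sub_sub_cancel_left, norm_neg, norm_smul,
          Real.norm_of_nonneg hr.le]
        nlinarith
      have h3 : F (p - r • t) = ‖G (p - r • t) - (c - r • M t)‖ := by
        rw [hF, indicator_of_mem h2]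
        congr 1
        rw [sub_sub_cancel_left, map_neg, map_smul]
        abel
      rw [h3]
      have := MK_nonneg (n := n)
      gcongr
      exact le_MK t
    · rw [K_zero ht.le]
      have h5 : 0 ≤ F (p - r • t) := by
        rw [hF]
        exact indicator_nonneg (fun s _ => norm_nonneg _) _
      have := MK_nonneg (n := n)
      simp
      positivity
  rw [integral_const_mul, e5, ← e4] at key
  refine key.trans (le_of_eq ?_)
  ring

/-- `h` is integrable on the ball of radius `2 r` about `p`, and its distance to the affine map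
with linear part `L` and value `c` at `p` has integral at most `δ r^(n+1)` over this ball. -/
def AC (n : ℕ) {W : Type} [NormedAddCommGroup W] [NormedSpace ℝ W] (h : E n → W) (p : E n)
    (r δ : ℝ) (L : E n →L[ℝ] W) (c : W) : Prop :=
  IntegrableOn h (closedBall p (2 * r)) ∧
    ∫ q in closedBall p (2 * r), ‖h q - c - L (q - p)‖ ≤ δ * r ^ (n + 1)

lemma AC.int {h : E n → W} {p : E n} {r δ : ℝ} {L : E n →L[ℝ] W} {c : W}
    (hA : AC n h p r δ L c) :
    IntegrableOn (fun q => ‖h q - c - L (q - p)‖) (closedBall p (2 * r)) := by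
  refine Integrable.norm (Integrable.sub (hA.1.sub ?_) ?_)
  · exact integrableOn_const (by exact measure_closedBall_lt_top.ne)
  · refine (Continuous.continuousOn ?_).integrableOn_compact (isCompact_closedBall _ _)
    exact L.continuous.comp (continuous_id.sub continuous_const)

/-- the mollification on the ball of radius `r` about `p` -/
theorem AC.moll {h : E n → W} {p : E n} {r δ R : ℝ} {L : E n →L[ℝ] W} {c : W}
    (hA : AC n h p r δ L c) (hG : IntegrableOn h (closedBall 0 R)) (hr : 0 < r) {q : E n}
    (hq : ‖q - p‖ ≤ r) (hR : ‖q‖ + r ≤ R) :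
    ‖fderiv ℝ (Ml n h R r) q - L‖ ≤ MD n * δ ∧
      ‖Ml n h R r q - (c + L (q - p))‖ ≤ MK n * (δ * r) := by
  have hsub : closedBall q r ⊆ closedBall p (2 * r) := by
    intro s hs
    rw [mem_closedBall, dist_eq_norm] at hs ⊢
    calc ‖s - p‖ = ‖(s - q) + (q - p)‖ := by congr 1; abel
      _ ≤ ‖s - q‖ + ‖q - p‖ := norm_add_le _ _
      _ ≤ 2 * r := by linarith
  have h1 : ∫ s in closedBall q r, ‖h s - (c + L (q - p)) - L (s - q)‖ ≤ δ * r ^ (n + 1) := by
    have e1 : ∀ s, ‖h s - (c + L (q - p)) - L (s - q)‖ = ‖h s - c - L (s - p)‖ := by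
      intro s
      congr 1
      have : s - p = (s - q) + (q - p) := by abel
      rw [this, map_add]
      abel
    simp only [e1]
    refine le_trans ?_ hA.2
    exact setIntegral_mono_set hA.int (Eventually.of_forall fun _ => norm_nonneg _)
      hsub.eventuallyLE
  have hrn : 0 < r ^ n := by positivity
  have hrn1 : 0 < r ^ (n + 1) := by positivity
  constructor
  · have h0 : 0 ≤ δ := by
      have h2 : 0 ≤ δ * r ^ (n + 1) := (integral_nonneg fun _ => norm_nonneg _).trans h1
      exact nonneg_of_mul_nonneg_left h2 hrn1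
    refine ContinuousLinearMap.opNorm_le_bound _ (mul_nonneg MD_nonneg h0) fun w => ?_
    rw [sub_apply]
    refine (Ml_dmean (c + L (q - p)) L w hG hr hR).trans ?_
    have hMD := MD_nonneg (n := n)
    calc ‖w‖ * MD n * (r ^ (n + 1))⁻¹ *
        ∫ s in closedBall q r, ‖h s - (c + L (q - p)) - L (s - q)‖ ≤
        ‖w‖ * MD n * (r ^ (n + 1))⁻¹ * (δ * r ^ (n + 1)) := by gcongr
      _ = MD n * δ * ‖w‖ := by field_simp
  · refine (Ml_amean (c + L (q - p)) L hG hr hR).trans ?_
    have hMK := MK_nonneg (n := n)
    calc MK n * (r ^ n)⁻¹ *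
        ∫ s in closedBall q r, ‖h s - (c + L (q - p)) - L (s - q)‖ ≤
        MK n * (r ^ n)⁻¹ * (δ * r ^ (n + 1)) := by gcongr
      _ = MK n * (δ * r) := by
        rw [pow_succ]
        field_simp

lemma VB_pos : 0 < VB n := by
  unfold VB
  exact ENNReal.toReal_pos (measure_closedBall_pos _ _ one_pos).ne' measure_closedBall_lt_top.ne

/-- points with a good value -/
theorem AC.good {h : E n → W} {p : E n} {r δ η : ℝ} {L : E n →L[ℝ] W} {c : W}
    (hA : AC n h p r δ L c) (hr : 0 < r) (hη : 0 < η) (hη1 : η ≤ 1) :
    ∃ q, ‖q - p‖ ≤ η * r ∧ ‖h q - c - L (q - p)‖ ≤ (VB n)⁻¹ * (η ^ n)⁻¹ * (δ * r) := by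
  have hsub : closedBall p (η * r) ⊆ closedBall p (2 * r) := closedBall_subset_closedBall (by
    nlinarith)
  have hv := vol_cb p (show 0 < η * r by positivity)
  have hv0 : (volume : Measure (E n)) (closedBall p (η * r)) ≠ 0 :=
    (measure_closedBall_pos _ _ (by positivity)).ne'
  obtain ⟨q, hq, hle⟩ := exists_le_setAverage hv0 measure_closedBall_lt_top.ne
    (hA.int.mono_set hsub)
  refine ⟨q, by rwa [mem_closedBall, dist_eq_norm] at hq, hle.trans ?_⟩
  rw [setAverage_eq, hv, smul_eq_mul]
  have h1 : ∫ q in closedBall p (η * r), ‖h q - c - L (q - p)‖ ≤ δ * r ^ (n + 1) := by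
    refine le_trans ?_ hA.2
    exact setIntegral_mono_set hA.int (Eventually.of_forall fun _ => norm_nonneg _)
      hsub.eventuallyLE
  have hVB := VB_pos (n := n)
  calc ((η * r) ^ n * VB n)⁻¹ * ∫ q in closedBall p (η * r), ‖h q - c - L (q - p)‖ ≤
      ((η * r) ^ n * VB n)⁻¹ * (δ * r ^ (n + 1)) := by gcongr
    _ = _ := by
      rw [mul_pow, pow_succ]
      field_simp

end Pool.Agent.N824.CD
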