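import Pool.Agent.N824.CD.Moll

/-!
# Coarse discs: smoothing
-/

set_option autoImplicit false
set_option maxSynthPendingDepth 3

open Set Filter Topology Metric Function MeasureTheory
open scoped Manifold ContDiff Convolution

set_option linter.unusedSectionVars false

noncomputable section

namespace Pool.Agent.N824.CD

open Pool.Agent.Y522 Pool.Agent.Y954.SH Pool.Agent.N824.CR Pool.Agent.N824.CN Pool.Agent.N824.CJ

variable {n : ℕ} {W : Type} [NormedAddCommGroup W] [NormedSpace ℝ W] [FiniteDimensional ℝ W]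

/-- second order estimate on a compact set -/
theorem quadT {F0 : E n → W} {T : Set (E n)} (hT : IsCompact T)
    (hF : ∀ x ∈ T, ContDiffAt ℝ ∞ F0 x) : ∃ ε C : ℝ, 0 < ε ∧ 0 ≤ C ∧ ∀ q ∈ T, ∀ r, 0 < r → r ≤ ε →
      ∀ q', ‖q' - q‖ ≤ r → ‖F0 q' - F0 q - fderiv ℝ F0 q (q' - q)‖ ≤ C * (r * r) := by
  refine hT.induction_on (p := fun s => ∃ ε C : ℝ, 0 < ε ∧ 0 ≤ C ∧ ∀ q ∈ s, ∀ r, 0 < r → r ≤ ε →
      ∀ q', ‖q' - q‖ ≤ r → ‖F0 q' - F0 q - fderiv ℝ F0 q (q' - q)‖ ≤ C * (r * r)) ?_ ?_ ?_ ?_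
  · exact ⟨1, 0, one_pos, le_rfl, fun q hq => absurd hq (notMem_empty q)⟩
  · rintro s t hst ⟨ε, C, h1, h2, h3⟩
    exact ⟨ε, C, h1, h2, fun q hq => h3 q (hst hq)⟩
  · rintro s t ⟨ε, C, h1, h2, h3⟩ ⟨ε', C', h1', h2', h3'⟩
    refine ⟨min ε ε', max C C', lt_min h1 h1', h2.trans (le_max_left _ _), ?_⟩
    rintro q (hq | hq) r hr hrε q' hq'
    · refine (h3 q hq r hr (hrε.trans (min_le_left _ _)) q' hq').trans ?_
      gcongr
      exact le_max_left _ _
    · refine (h3' q hq r hr (hrε.trans (min_le_right _ _)) q' hq').trans ?_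
      gcongr
      exact le_max_right _ _
  · intro x hx
    obtain ⟨ρ, C, h1, h2, -, h3⟩ := quad_ballW (hF x hx) one_pos
    refine ⟨ball x (ρ / 2), mem_nhdsWithin_of_mem_nhds (ball_mem_nhds x (by positivity)),
      ρ / 3, C, by positivity, h2, fun q hq r hr hrε q' hq' => ?_⟩
    rw [mem_ball, dist_eq_norm] at hq
    refine (h3 q r (fun s hs => ?_) q' hq').trans ?_
    · calc ‖s - x‖ = ‖(s - q) + (q - x)‖ := by congr 1; abel
        _ ≤ ‖s - q‖ + ‖q - x‖ := norm_add_le _ _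
        _ < ρ := by linarith
    · rw [mul_assoc]
      gcongr

/-- the mollification of a smooth map -/
theorem smoothG {F0 f : E n → W} {q : E n} {r C : ℝ} (hr : 0 < r)
    (hf : IntegrableOn f (closedBall 0 1)) (hq : ‖q‖ + r ≤ 1)
    (he : ∀ s, ‖s - q‖ ≤ r → f s = F0 s)
    (hC : ∀ s, ‖s - q‖ ≤ r → ‖F0 s - F0 q - fderiv ℝ F0 q (s - q)‖ ≤ C * (r * r)) :
    ‖fderiv ℝ (Ml n f 1 r) q - fderiv ℝ F0 q‖ ≤ MD n * (C * VB n) * r ∧
      ‖Ml n f 1 r q - F0 q‖ ≤ MK n * (C * VB n) * (r * r) := by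
  have h1 : ∫ s in closedBall q r, ‖f s - F0 q - fderiv ℝ F0 q (s - q)‖ ≤
      C * (r * r) * (r ^ n * VB n) := by
    have h3 : ‖∫ s in closedBall q r, ‖f s - F0 q - fderiv ℝ F0 q (s - q)‖‖ ≤
        C * (r * r) * (volume : Measure (E n)).real (closedBall q r) := by
      refine norm_setIntegral_le_of_norm_le_const measure_closedBall_lt_top fun s hs => ?_
      rw [mem_closedBall, dist_eq_norm] at hs
      rw [norm_norm, he s hs]
      exact hC s hs
    rw [vol_cb q hr] at h3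
    exact (le_abs_self _).trans h3
  have hC0 : 0 ≤ C * (r * r) := by
    have := hC q (by simpa using hr.le)
    simpa using this
  have hC0' : 0 ≤ C := nonneg_of_mul_nonneg_left hC0 (by positivity)
  have hMD := MD_nonneg (n := n)
  have hMK := MK_nonneg (n := n)
  have hVB := VB_nonneg (n := n)
  constructor
  · refine ContinuousLinearMap.opNorm_le_bound _ (by positivity) fun w => ?_
    rw [sub_apply]
    refine (Ml_dmean (F0 q) (fderiv ℝ F0 q) w hf hr hq).trans ?_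
    calc ‖w‖ * MD n * (r ^ (n + 1))⁻¹ *
        ∫ s in closedBall q r, ‖f s - F0 q - fderiv ℝ F0 q (s - q)‖ ≤
        ‖w‖ * MD n * (r ^ (n + 1))⁻¹ * (C * (r * r) * (r ^ n * VB n)) := by gcongr
      _ = MD n * (C * VB n) * r * ‖w‖ := by
        rw [pow_succ]
        field_simp
  · refine (Ml_amean (F0 q) (fderiv ℝ F0 q) hf hr hq).trans ?_
    calc MK n * (r ^ n)⁻¹ *
        ∫ s in closedBall q r, ‖f s - F0 q - fderiv ℝ F0 q (s - q)‖ ≤
        MK n * (r ^ n)⁻¹ * (C * (r * r) * (r ^ n * VB n)) := by gcongr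
      _ = MK n * (C * VB n) * (r * r) := by
        field_simp

/-- the data of a coarse disc -/
structure CData (n : ℕ) {W : Type} [NormedAddCommGroup W] [NormedSpace ℝ W] (U : Set (E n))
    (F0 : E n → W) (S : Set ℝ) (f : ℝ → E n → W) (τ : ℝ → ℝ)
    (Q : ℝ → E n → (E n →L[ℝ] W) → ℝ → Prop) : Prop where
  oU : IsOpen U
  sph : ∀ z : E n, ‖z‖ = 1 → z ∈ U
  F0s : ∀ z ∈ U, ‖z‖ ≤ 1 → ContDiffAt ℝ ∞ F0 z
  acc : (0 : ℝ) ∈ closure (S ∩ Ioi 0)
  τ0 : Tendsto τ (𝓝[>] 0) (𝓝 0)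
  eqU : ∀ r ∈ S, ∀ z ∈ U, ‖z‖ ≤ 1 → f r z = F0 z
  good : ∀ x : E n, ‖x‖ < 1 → x ∉ U → ∃ ρ : ℝ, 0 < ρ ∧ ∀ p : E n, ‖p - x‖ < ρ → ∀ r ∈ S, 0 < r →
    r < ρ → ∃ (L : E n →L[ℝ] W) (δ : ℝ) (c : W), 0 ≤ δ ∧ (1 + ‖L‖) * r ≤ δ * τ r ∧
      AC n (f r) p r δ L c ∧ Q r p L δ

set_option linter.dupNamespace false in
/-- the constant -/
def CD (n : ℕ) : ℝ := MD n + MK n + 1

lemma CD_one : 1 ≤ CD n := by
  have h1 := MD_nonneg (n := n)
  have h2 := MK_nonneg (n := n)
  unfold CD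
  linarith

/-- smoothing of coarse discs -/
theorem CData.smooth {U : Set (E n)} {F0 : E n → W} {S : Set ℝ} {f : ℝ → E n → W} {τ : ℝ → ℝ}
    {Q : ℝ → E n → (E n →L[ℝ] W) → ℝ → Prop} (h : CData n U F0 S f τ Q) :
    ∃ Cc : Set (E n), IsCompact Cc ∧ (∀ x ∈ Cc, ‖x‖ < 1) ∧ (∀ x, ‖x‖ ≤ 1 → x ∉ Cc → x ∈ U) ∧
      ∀ᶠ r in 𝓝[S ∩ Ioi 0] (0 : ℝ), ∃ F : E n → W, (∀ x, ‖x‖ ≤ 1 → ContDiffAt ℝ ∞ F x) ∧
        (∀ x, x ∉ Cc → F x = F0 x) ∧
        ∀ x ∈ Cc, ∃ (L : E n →L[ℝ] W) (δ : ℝ) (c : W), 0 ≤ δ ∧ Q r x L δ ∧ AC n (f r) x r δ L c ∧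
          (∀ q, ‖q - x‖ ≤ r → ‖q‖ < 1 ∧ ‖fderiv ℝ F q - L‖ ≤ CD n * δ ∧
            ∃ (L' : E n →L[ℝ] W) (δ' : ℝ), Q r q L' δ') ∧
          ‖F x - c‖ ≤ CD n * (δ * r) := by
  classical
  obtain ⟨K₀, hK₀⟩ : ∃ K₀ : Set (E n), K₀ = closedBall 0 1 ∩ Uᶜ := ⟨_, rfl⟩
  have hK₀c : IsCompact K₀ := by
    rw [hK₀]
    exact (isCompact_closedBall _ _).inter_right h.oU.isClosed_compl
  have hK₀m : ∀ x ∈ K₀, ‖x‖ < 1 ∧ x ∉ U := by
    intro x hx
    rw [hK₀] at hx
    have h1 : ‖x‖ ≤ 1 := mem_closedBall_zero_iff.1 hx.1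
    exact ⟨lt_of_le_of_ne h1 fun h2 => hx.2 (h.sph x h2), hx.2⟩
  choose ρ hρ hgood using fun x : K₀ => h.good x.1 (hK₀m x.1 x.2).1 (hK₀m x.1 x.2).2
  obtain ⟨t, ht⟩ := hK₀c.elim_finite_subcover (fun x : K₀ => ball (x : E n) (ρ x))
    (fun x => isOpen_ball) (fun x hx => mem_iUnion.2 ⟨⟨x, hx⟩, mem_ball_self (hρ _)⟩)
  obtain ⟨V, hV⟩ : ∃ V : Set (E n), V = (⋃ i ∈ t, ball (i : E n) (ρ i)) ∩ ball 0 1 := ⟨_, rfl⟩
  have hVo : IsOpen V := by
    rw [hV]
    exact (isOpen_biUnion fun i _ => isOpen_ball).inter isOpen_ball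
  have hKV : K₀ ⊆ V := by
    intro x hx
    rw [hV]
    exact ⟨ht hx, mem_ball_zero_iff.2 (hK₀m x hx).1⟩
  obtain ⟨ρ₀, hρ₀, hρ₀i⟩ : ∃ ρ₀ : ℝ, 0 < ρ₀ ∧ ∀ i ∈ t, ρ₀ ≤ ρ i := by
    have h1 : ∀ᶠ s in 𝓝[>] (0 : ℝ), ∀ i ∈ t, s ≤ ρ i := by
      refine (Finset.eventually_all t).2 fun i _ => ?_
      filter_upwards [Ioo_mem_nhdsGT (hρ i)] with s hs
      exact hs.2.le
    obtain ⟨s, hs, hs0⟩ := (h1.and self_mem_nhdsWithin).exists
    exact ⟨s, hs0, hs⟩
  have hVg : ∀ p ∈ V, ∀ r ∈ S, 0 < r → r < ρ₀ → ∃ (L : E n →L[ℝ] W) (δ : ℝ) (c : W), 0 ≤ δ ∧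
      (1 + ‖L‖) * r ≤ δ * τ r ∧ AC n (f r) p r δ L c ∧ Q r p L δ := by
    intro p hp r hr h0 hrρ
    rw [hV] at hp
    obtain ⟨i, hi⟩ := mem_iUnion.1 hp.1
    obtain ⟨hi1, hi2⟩ := mem_iUnion.1 hi
    exact hgood i p (by rwa [mem_ball, dist_eq_norm] at hi2) r hr h0 (hrρ.trans_le (hρ₀i i hi1))
  have hV1 : ∀ p ∈ V, ‖p‖ < 1 := fun p hp => by
    rw [hV] at hp
    exact mem_ball_zero_iff.1 hp.2
  obtain ⟨C1, hC1, h01, h1V⟩ := exists_compact_between hK₀c hVo hKV
  obtain ⟨C2, hC2, h12, h2V⟩ := exists_compact_between hC1 hVo h1V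
  obtain ⟨ψ', hψ1, hψ0, hψi⟩ := exists_contMDiffMap_one_nhds_of_subset_interior
    (n := (⊤ : ℕ∞)) 𝓘(ℝ, E n) hK₀c.isClosed h01
  obtain ⟨ψ, hψ⟩ : ∃ ψ : E n → ℝ, ψ = fun x => ψ' x := ⟨_, rfl⟩
  have hψs : ContDiff ℝ ∞ ψ := by
    rw [hψ]
    exact ψ'.contMDiff.contDiff
  have hψ1' : ∀ᶠ x in 𝓝ˢ K₀, ψ x = 1 := by rw [hψ]; exact hψ1
  have hψ0' : ∀ x, x ∉ C1 → ψ x = 0 := by rw [hψ]; exact hψ0
  have hψi' : ∀ x, 0 ≤ ψ x ∧ ψ x ≤ 1 := fun x => by rw [hψ]; exact hψi x
  obtain ⟨T, hT⟩ : ∃ T : Set (E n), T = C2 \ interior {x | ψ x = 1} := ⟨_, rfl⟩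
  have hTc : IsCompact T := by
    rw [hT]
    exact hC2.diff isOpen_interior
  have hTU : T ⊆ U := by
    intro x hx
    rw [hT] at hx
    by_contra hxU
    have hxK : x ∈ K₀ := by
      rw [hK₀]
      exact ⟨mem_closedBall_zero_iff.2 (hV1 x (h2V hx.1)).le, hxU⟩
    apply hx.2
    rw [mem_interior_iff_mem_nhds]
    exact eventually_nhdsSet_iff_forall.1 hψ1' x hxK
  have hT1 : ∀ x ∈ T, ‖x‖ < 1 := fun x hx => by
    rw [hT] at hx
    exact hV1 x (h2V hx.1)
  obtain ⟨εq, Cq, hεq, hCq, hquad⟩ := quadT hTc fun x hx => h.F0s x (hTU hx) (hT1 x hx).le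
  -- neighbourhoods
  obtain ⟨ε1, hε1, hth1⟩ := hC1.exists_cthickening_subset_open isOpen_interior h12
  obtain ⟨ε2, hε2, hth2⟩ := hC2.exists_cthickening_subset_open hVo h2V
  obtain ⟨ε3, hε3, hth3⟩ := hTc.exists_cthickening_subset_open (h.oU.inter hVo)
    (fun x hx => ⟨hTU hx, by rw [hT] at hx; exact h2V hx.1⟩)
  have hthick : ∀ {A : Set (E n)} {ε r : ℝ} {x q : E n}, x ∈ A → ‖q - x‖ ≤ r → r ≤ ε →
      q ∈ cthickening ε A := by
    intro A ε r x q hx hq hr
    exact mem_cthickening_of_dist_le q x ε A hx (by rw [dist_eq_norm]; linarith)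
  -- the bound of the derivative of the cutoff
  obtain ⟨D1, hD1, hDψ⟩ : ∃ D1 : ℝ, 0 ≤ D1 ∧ ∀ x ∈ C2, ‖fderiv ℝ ψ x‖ ≤ D1 := by
    obtain ⟨D1, hD⟩ := hC2.exists_bound_of_continuousOn
      (f := fun x => fderiv ℝ ψ x) (hψs.continuous_fderiv (by simp)).continuousOn
    exact ⟨max D1 0, le_max_right _ _, fun x hx => (hD x hx).trans (le_max_left _ _)⟩
  have hMD := MD_nonneg (n := n)
  have hMK := MK_nonneg (n := n)
  have hVB := VB_nonneg (n := n)
  refine ⟨C1, hC1, fun x hx => hV1 x (h1V hx), fun x hx1 hx => ?_, ?_⟩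
  · by_contra hxU
    apply hx
    refine interior_subset (h01 ?_)
    rw [hK₀]
    exact ⟨mem_closedBall_zero_iff.2 hx1, hxU⟩
  -- small scales
  obtain ⟨C3, hC3⟩ : ∃ C3 : ℝ, C3 = MD n * (Cq * VB n) + (D1 + 1) * (MK n * (Cq * VB n)) :=
    ⟨_, rfl⟩
  have hC30 : 0 ≤ C3 := by rw [hC3]; positivity
  have hlim : Tendsto (fun r => C3 * τ r) (𝓝[S ∩ Ioi 0] (0 : ℝ)) (𝓝 0) := by
    have h1 := (h.τ0.mono_left (nhdsWithin_mono (0 : ℝ) (inter_subset_right (s := S)))).const_mul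
      C3
    rwa [mul_zero] at h1
  have hsmall : ∀ ε : ℝ, 0 < ε → ∀ᶠ r in 𝓝[S ∩ Ioi 0] (0 : ℝ), r < ε := fun ε hε =>
    eventually_nhdsWithin_of_eventually_nhds (eventually_lt_nhds hε)
  filter_upwards [self_mem_nhdsWithin, hsmall _ hρ₀, hsmall _ hεq, hsmall _ hε1, hsmall _ hε2,
    hsmall _ hε3, hsmall 1 one_pos, hlim.eventually_lt_const one_pos] with r hrS r0 rq r1 r2 r3 r4 hτr
  obtain ⟨hrS, hr⟩ := hrS
  replace hr : 0 < r := hr
  -- integrability
  have hint : IntegrableOn (f r) (closedBall 0 1) := by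
    refine LocallyIntegrableOn.integrableOn_isCompact ?_ (isCompact_closedBall _ _)
    intro x hx
    by_cases hxU : x ∈ U
    · have h1 : ContinuousOn (f r) (U ∩ closedBall 0 1) := by
        intro z hz
        have hz1 : ‖z‖ ≤ 1 := mem_closedBall_zero_iff.1 hz.2
        refine ((h.F0s z hz.1 hz1).continuousAt.continuousWithinAt).congr (fun y hy => ?_) ?_
        · exact h.eqU r hrS y hy.1 (mem_closedBall_zero_iff.1 hy.2)
        · exact h.eqU r hrS z hz.1 hz1
      have h2 := h1.integrableAt_nhdsWithin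
        (h.oU.measurableSet.inter measurableSet_closedBall) (μ := volume) ⟨hxU, hx⟩
      rwa [nhdsWithin_inter_of_mem (mem_nhdsWithin_of_mem_nhds
        (h.oU.mem_nhds hxU))] at h2
    · have hxV : x ∈ V := hKV (by rw [hK₀]; exact ⟨hx, hxU⟩)
      obtain ⟨L, δ, c, -, -, hA, -⟩ := hVg x hxV r hrS hr r0
      exact ⟨closedBall x (2 * r), mem_nhdsWithin_of_mem_nhds
        (closedBall_mem_nhds x (by positivity)), hA.1⟩
  obtain ⟨G, hG⟩ : ∃ G : E n → W, G = Ml n (f r) 1 r := ⟨_, rfl⟩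
  have hGs : ContDiff ℝ ∞ G := by
    rw [hG]
    exact Pool.Agent.N824.CN.Ml_smooth hint hr
  obtain ⟨F, hF⟩ : ∃ F : E n → W, F = fun x => (1 - ψ x) • F0 x + ψ x • G x := ⟨_, rfl⟩
  have hball : ∀ x ∈ C2, ‖x‖ + r ≤ 1 := by
    intro x hx
    by_contra hcon
    push Not at hcon
    -- the point of norm `1` in the direction of `x`
    have hx1 := hV1 x (h2V hx)
    by_cases hx0 : x = 0
    · rw [hx0, norm_zero, zero_add] at hcon
      linarith
    · have hxn : 0 < ‖x‖ := norm_pos_iff.2 hx0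
      have h1 : (‖x‖⁻¹ • x) ∈ cthickening ε2 C2 := by
        refine hthick hx (r := r) ?_ r2.le
        have e1 : ‖x‖⁻¹ • x - x = (‖x‖⁻¹ - 1) • x := by rw [sub_smul, one_smul]
        have e2 : 0 ≤ ‖x‖⁻¹ - 1 := by
          rw [sub_nonneg, one_le_inv₀ hxn]
          exact hx1.le
        rw [e1, norm_smul, Real.norm_of_nonneg e2, sub_mul, inv_mul_cancel₀ hxn.ne']
        linarith
      have h2 := hV1 _ (hth2 h1)
      rw [norm_smul, norm_inv, norm_norm, inv_mul_cancel₀ hxn.ne'] at h2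
      exact lt_irrefl _ h2
  have hFC : ∀ x, x ∉ C1 → F x = F0 x := by
    intro x hx
    rw [hF]
    beta_reduce
    rw [hψ0' x hx, sub_zero, one_smul, zero_smul, add_zero]
  -- the estimates on `T`
  have hTe : ∀ q ∈ T, ‖fderiv ℝ G q - fderiv ℝ F0 q‖ ≤ MD n * (Cq * VB n) * r ∧
      ‖G q - F0 q‖ ≤ MK n * (Cq * VB n) * (r * r) := by
    intro q hq
    rw [hG]
    have hq2 : q ∈ C2 := by
      rw [hT] at hq
      exact hq.1
    refine smoothG hr hint (hball q hq2) (fun s hs => ?_) fun s hs => hquad q hq r hr rq.le s hs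
    have h1 := hth3 (hthick hq hs r3.le)
    exact h.eqU r hrS s h1.1 (hV1 s h1.2).le
  refine ⟨F, fun x hx => ?_, hFC, fun x hx => ?_⟩
  · -- smoothness
    by_cases hxU : x ∈ U
    · rw [hF]
      exact ((contDiffAt_const.sub hψs.contDiffAt).smul (h.F0s x hxU hx)).add
        (hψs.contDiffAt.smul hGs.contDiffAt)
    · have hxK : x ∈ K₀ := by
        rw [hK₀]
        exact ⟨mem_closedBall_zero_iff.2 hx, hxU⟩
      refine hGs.contDiffAt.congr_of_eventuallyEq ?_
      filter_upwards [eventually_nhdsSet_iff_forall.1 hψ1' x hxK] with y hy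
      rw [hF]
      beta_reduce
      rw [hy, sub_self, zero_smul, one_smul, zero_add]
  · obtain ⟨L, δ, c, hδ, hLτ, hA, hQ⟩ := hVg x (h1V hx) r hrS hr r0
    have hrδ : C3 * r ≤ δ := by
      have h1 : r ≤ δ * τ r := by
        have h2 : r ≤ (1 + ‖L‖) * r := by
          have := norm_nonneg L
          nlinarith
        linarith
      calc C3 * r ≤ C3 * (δ * τ r) := by gcongr
        _ = (C3 * τ r) * δ := by ring
        _ ≤ 1 * δ := by gcongr
        _ = δ := one_mul δ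
    have hC2q : ∀ q, ‖q - x‖ ≤ r → q ∈ C2 := fun q hq =>
      interior_subset (hth1 (hthick hx hq r1.le))
    refine ⟨L, δ, c, hδ, hQ, hA, fun q hq => ?_, ?_⟩
    · have hq2 := hC2q q hq
      refine ⟨hV1 q (h2V hq2), ?_, ?_⟩
      · obtain ⟨g1, -⟩ := hA.moll hint hr hq (hball q hq2)
        rw [← hG] at g1
        by_cases hqT : q ∈ T
        · obtain ⟨g2, g3⟩ := hTe q hqT
          have hqs := (h.F0s q (hTU hqT) (hT1 q hqT).le).differentiableAt (by simp)
          have hd1 : HasFDerivAt ψ (fderiv ℝ ψ q) q :=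
            (hψs.contDiffAt.differentiableAt (by simp)).hasFDerivAt
          have hd2 : HasFDerivAt G (fderiv ℝ G q) q :=
            (hGs.contDiffAt.differentiableAt (by simp)).hasFDerivAt
          have hd3 : HasFDerivAt F (((1 - ψ q) • fderiv ℝ F0 q + (-fderiv ℝ ψ q).smulRight (F0 q)) +
              (ψ q • fderiv ℝ G q + (fderiv ℝ ψ q).smulRight (G q))) q := by
            rw [hF]
            have k1 : HasFDerivAt (fun x => 1 - ψ x) (-fderiv ℝ ψ q) q := hd1.const_sub 1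
            exact (k1.smul hqs.hasFDerivAt).add (hd1.smul hd2)
          rw [hd3.fderiv]
          have e1 : ((1 - ψ q) • fderiv ℝ F0 q + (-fderiv ℝ ψ q).smulRight (F0 q)) +
              (ψ q • fderiv ℝ G q + (fderiv ℝ ψ q).smulRight (G q)) - L =
              (fderiv ℝ G q - L) - (1 - ψ q) • (fderiv ℝ G q - fderiv ℝ F0 q) +
                (fderiv ℝ ψ q).smulRight (G q - F0 q) := by
            ext v
            simp only [sub_apply, add_apply,
              ContinuousLinearMap.smulRight_apply, smul_apply, neg_apply, smul_sub,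
              sub_smul, one_smul, neg_smul]
            abel
          rw [e1]
          obtain ⟨p0, p1⟩ := hψi' q
          have e2 : ‖(1 - ψ q) • (fderiv ℝ G q - fderiv ℝ F0 q)‖ ≤ MD n * (Cq * VB n) * r := by
            rw [norm_smul, Real.norm_of_nonneg (by linarith)]
            calc (1 - ψ q) * ‖fderiv ℝ G q - fderiv ℝ F0 q‖ ≤
                1 * (MD n * (Cq * VB n) * r) := by
                  gcongr
                  linarith
              _ = _ := one_mul _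
          have e3 : ‖(fderiv ℝ ψ q).smulRight (G q - F0 q)‖ ≤
              D1 * (MK n * (Cq * VB n)) * r := by
            rw [ContinuousLinearMap.norm_smulRight_apply]
            calc ‖fderiv ℝ ψ q‖ * ‖G q - F0 q‖ ≤ D1 * (MK n * (Cq * VB n) * (r * r)) := by
                  gcongr
                  exact hDψ q hq2
              _ ≤ D1 * (MK n * (Cq * VB n) * (r * 1)) := by gcongr
              _ = _ := by ring
          refine (norm_add_le _ _).trans ((add_le_add (norm_sub_le _ _) le_rfl).trans ?_)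
          have e4 : MD n * (Cq * VB n) * r + D1 * (MK n * (Cq * VB n)) * r ≤ C3 * r := by
            rw [hC3]
            have : 0 ≤ MK n * (Cq * VB n) * r := by positivity
            nlinarith
          unfold CD
          have : 0 ≤ MK n * δ := by positivity
          nlinarith
        · have hqi : q ∈ interior {x | ψ x = 1} := by
            by_contra hcon
            apply hqT
            rw [hT]
            exact ⟨hq2, hcon⟩
          have hFG : F =ᶠ[𝓝 q] G := by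
            filter_upwards [mem_interior_iff_mem_nhds.1 hqi] with y hy
            have hy' : ψ y = 1 := hy
            rw [hF]
            beta_reduce
            rw [hy', sub_self, zero_smul, one_smul, zero_add]
          rw [hFG.fderiv_eq]
          refine g1.trans ?_
          unfold CD
          have : 0 ≤ MK n * δ := by positivity
          nlinarith
      · obtain ⟨L', δ', -, -, -, -, hQ'⟩ := hVg q (h2V hq2) r hrS hr r0
        exact ⟨L', δ', hQ'⟩
    · have hx2 : x ∈ C2 := interior_subset (h12 hx)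
      obtain ⟨-, g2⟩ := hA.moll hint hr (q := x) (by simpa using hr.le) (hball x hx2)
      rw [← hG, sub_self, map_zero, add_zero] at g2
      by_cases hxT : x ∈ T
      · obtain ⟨-, g3⟩ := hTe x hxT
        obtain ⟨p0, p1⟩ := hψi' x
        have e1 : F x - c = (G x - c) - (1 - ψ x) • (G x - F0 x) := by
          rw [hF]
          beta_reduce
          rw [smul_sub, sub_smul, one_smul, sub_smul, one_smul]
          abel
        rw [e1]
        have e2 : ‖(1 - ψ x) • (G x - F0 x)‖ ≤ MK n * (Cq * VB n) * (r * r) := by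
          rw [norm_smul, Real.norm_of_nonneg (by linarith)]
          calc (1 - ψ x) * ‖G x - F0 x‖ ≤ 1 * (MK n * (Cq * VB n) * (r * r)) := by
                gcongr
                linarith
            _ = _ := one_mul _
        have e3 : MK n * (Cq * VB n) * (r * r) ≤ C3 * r * r := by
          rw [hC3]
          have k1 : 0 ≤ MD n * (Cq * VB n) * (r * r) := by positivity
          have k2 : 0 ≤ D1 * (MK n * (Cq * VB n)) * (r * r) := by positivity
          nlinarith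
        have e4 : C3 * r * r ≤ δ * r := by gcongr
        refine (norm_sub_le _ _).trans ?_
        unfold CD
        have : 0 ≤ MD n * (δ * r) := by positivity
        nlinarith
      · have hxi : x ∈ interior {x | ψ x = 1} := by
          by_contra hcon
          apply hxT
          rw [hT]
          exact ⟨hx2, hcon⟩
        have hx1 : x ∈ {x | ψ x = 1} := interior_subset hxi
        replace hx1 : ψ x = 1 := hx1
        have e1 : F x = G x := by
          rw [hF]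
          beta_reduce
          rw [hx1, sub_self, zero_smul, one_smul, zero_add]
        rw [e1]
        refine g2.trans ?_
        unfold CD
        have : 0 ≤ MD n * (δ * r) := by positivity
        have : 0 ≤ δ * r := by positivity
        nlinarith

end Pool.Agent.N824.CD
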